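import Pool.Agent.TH459.ER1
import Pool.Agent.H330.Ramsey

set_option autoImplicit false

/-!
# Spread configurations are Ramsey
-/

namespace Pool.Agent.TH459.ER

/-- Infinite Ramsey theorem for increasing maps. -/
theorem ramsey_inf {C : Type} [Finite C] (m : ℕ) (f : (Fin m → ℕ) → C) :
    ∃ h : ℕ → ℕ, StrictMono h ∧ ∀ a b : Fin m → ℕ, StrictMono a → StrictMono b →
      f (h ∘ a) = f (h ∘ b) := by
  classical
  by_cases hC : Nonempty C
  swap
  · exact (hC ⟨f (fun i => i)⟩).elim
  obtain ⟨c0⟩ := hC
  obtain ⟨H, c, hH, hc⟩ := Pool.Agent.H330.infinite_ramsey (A := ℕ) (C := C) m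
    (fun s => if hs : s.card = m then f (s.orderEmbOfFin hs) else c0)
  have hinf : (Set.ofPred fun x => x ∈ H).Infinite := hH
  refine ⟨Nat.nth (fun x => x ∈ H), Nat.nth_strictMono hinf, ?_⟩
  have key : ∀ a : Fin m → ℕ, StrictMono a → f (Nat.nth (fun x => x ∈ H) ∘ a) = c := by
    intro a ha
    have hmono : StrictMono (Nat.nth (fun x => x ∈ H) ∘ a) := (Nat.nth_strictMono hinf).comp ha
    have hcard : (Finset.univ.image (Nat.nth (fun x => x ∈ H) ∘ a)).card = m := by
      rw [Finset.card_image_of_injective _ hmono.injective, Finset.card_univ, Fintype.card_fin]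
    have h1 := hc _ hcard (by
      intro x hx
      rw [Finset.coe_image] at hx
      obtain ⟨i, -, rfl⟩ := hx
      exact Nat.nth_mem_of_infinite hinf _)
    rw [dif_pos hcard] at h1
    rw [← h1]
    congr 1
    exact Finset.orderEmbOfFin_unique hcard
      (fun i => Finset.mem_image_of_mem _ (Finset.mem_univ i)) hmono
  intro a b ha hb
  rw [key a ha, key b hb]

/-- Finite Ramsey theorem for increasing maps. -/
theorem ramsey_fin (C : Type) [Finite C] (m n : ℕ) : ∃ N : ℕ, ∀ f : (Fin m → ℕ) → C,
    ∃ h : Fin n → ℕ, StrictMono h ∧ (∀ i, h i < N) ∧ ∀ a b : Fin m → Fin n, StrictMono a →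
      StrictMono b → f (h ∘ a) = f (h ∘ b) := by
  classical
  obtain ⟨F, hF⟩ := compactness (Ω := Fin m → ℕ) (C := C) (J := Fin n → ℕ)
    (fun h f => StrictMono h ∧ ∀ a b : Fin m → Fin n, StrictMono a →
      StrictMono b → f (h ∘ a) = f (h ∘ b))
    (fun h => Finset.univ.image (fun a : Fin m → Fin n => h ∘ a))
    (by
      rintro h f f' hf ⟨h1, h2⟩
      refine ⟨h1, fun a b ha hb => ?_⟩
      rw [← hf (h ∘ a) (Finset.mem_image_of_mem _ (Finset.mem_univ _)),
        ← hf (h ∘ b) (Finset.mem_image_of_mem _ (Finset.mem_univ _))]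
      exact h2 a b ha hb)
    (by
      intro f
      obtain ⟨h, h1, h2⟩ := ramsey_inf m f
      refine ⟨fun i => h i, fun i j hij => h1 (by exact_mod_cast hij), fun a b ha hb => ?_⟩
      exact h2 (fun i => a i) (fun i => b i) (fun i j hij => by exact_mod_cast ha hij)
        (fun i j hij => by exact_mod_cast hb hij))
  refine ⟨(F.sup fun h => Finset.univ.sup h) + 1, fun f => ?_⟩
  obtain ⟨h, hh, h1, h2⟩ := hF f
  refine ⟨h, h1, fun i => ?_, h2⟩
  have e1 : h i ≤ Finset.univ.sup h := Finset.le_sup (Finset.mem_univ i)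
  have e2 : Finset.univ.sup h ≤ F.sup fun h => Finset.univ.sup h :=
    Finset.le_sup (f := fun h : Fin n → ℕ => Finset.univ.sup h) hh
  omega

/-- The shift of the coefficient vector `lam` by `s`. -/
noncomputable def shv {m S : ℕ} (lam : Fin m → ℝ) (s : Fin (S + 1)) : Fin (m + S) → ℝ :=
  Function.extend (fun i : Fin m => (⟨i + s, by omega⟩ : Fin (m + S))) lam 0

theorem extend_comp {α β γ : Type} {a : α → β} (ha : Function.Injective a) {h : β → γ}
    (hh : Function.Injective h) (x : α → ℝ) :
    Function.extend (h ∘ a) x 0 = Function.extend h (Function.extend a x 0) 0 := by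
  classical
  funext z
  by_cases hz : ∃ b, h b = z
  · obtain ⟨b, rfl⟩ := hz
    rw [hh.extend_apply]
    by_cases hb : ∃ i, a i = b
    · obtain ⟨i, rfl⟩ := hb
      rw [ha.extend_apply]
      exact (hh.comp ha).extend_apply _ _ i
    · rw [Function.extend_apply' _ _ _ hb, Function.extend_apply']
      · rfl
      · rintro ⟨i, hi⟩
        exact hb ⟨i, hh hi⟩
  · rw [Function.extend_apply' _ _ _ hz, Function.extend_apply']
    rintro ⟨i, hi⟩
    exact hz ⟨a i, hi⟩

theorem Ram.spread {m S : ℕ} (lam : Fin m → ℝ) :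
    Ram (fun s s' : Fin (S + 1) => sd (shv lam s) (shv lam s')) := by
  classical
  intro C hC
  obtain ⟨N, hN⟩ := ramsey_fin C m (m + S)
  refine ⟨Fin N, inferInstance, fun c => ?_⟩
  obtain ⟨h, h1, h2, h3⟩ := hN (fun b => c (fun x => Function.extend b lam 0 (x : ℕ)))
  let h' : Fin (m + S) → Fin N := fun i => ⟨h i, h2 i⟩
  have hh' : Function.Injective h' := by
    intro i j hij
    have := congrArg Fin.val hij
    exact h1.injective this
  have hval : Function.Injective (fun i : Fin N => (i : ℕ)) := Fin.val_injective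
  have hsh : ∀ s : Fin (S + 1), StrictMono (fun i : Fin m => (⟨i + s, by omega⟩ : Fin (m + S))) := by
    intro s i j hij
    have : (i : ℕ) < j := hij
    change (i : ℕ) + s < j + s
    omega
  have hg : ∀ s : Fin (S + 1), Function.extend h' (shv lam s) 0 =
      (fun x : Fin N => Function.extend
        (h ∘ (fun i : Fin m => (⟨i + s, by omega⟩ : Fin (m + S)))) lam 0 (x : ℕ)) := by
    intro s
    funext x
    rw [extend_comp (hsh s).injective h1.injective]
    change Function.extend h' (shv lam s) 0 x = Function.extend h (shv lam s) 0 (x : ℕ)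
    by_cases hx : ∃ i, h' i = x
    · obtain ⟨i, rfl⟩ := hx
      rw [hh'.extend_apply]
      exact (h1.injective.extend_apply _ _ i).symm
    · rw [Function.extend_apply' _ _ _ hx, Function.extend_apply']
      · rfl
      · rintro ⟨i, hi⟩
        exact hx ⟨i, Fin.ext hi⟩
  refine ⟨fun s => Function.extend h' (shv lam s) 0, fun s s' => ?_, fun s s' => ?_⟩
  · exact sd_extend hh' _ _
  · change c (Function.extend h' (shv lam s) 0) = c (Function.extend h' (shv lam s') 0)
    rw [hg s, hg s']
    exact h3 _ _ (hsh s) (hsh s')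

end Pool.Agent.TH459.ER
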