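import Mathlib

/-!
# Finite sums together with the sums `y n + 2 * y (n+1) + y (n+2)`

We work in the compact right topological semigroups `Ultrafilter ℕ` and `Ultrafilter (ℕ × ℕ)`.
-/

set_option autoImplicit false

namespace Pool.Agent.TH459.HLS

open Filter

attribute [local instance] Ultrafilter.add Ultrafilter.addSemigroup

/-! ## Minimal closed left ideals -/

section Ideals

variable {T : Type*} [AddSemigroup T] [TopologicalSpace T]

/-- nonempty closed left ideals -/
structure IsLI (I : Set T) : Prop where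
  ne : I.Nonempty
  closed : IsClosed I
  add_mem : ∀ u : T, ∀ v ∈ I, u + v ∈ I

/-- minimal closed left ideals -/
structure MinLI (I : Set T) : Prop where
  li : IsLI I
  min : ∀ J : Set T, IsLI J → J ⊆ I → J = I

variable [CompactSpace T] [T2Space T]

theorem exists_minLI (I₀ : Set T) (h₀ : IsLI I₀) : ∃ I, MinLI I ∧ I ⊆ I₀ := by
  obtain ⟨I, hI, hmin⟩ := zorn_superset_nonempty {I : Set T | IsLI I} (by
    intro c hc hchain hne
    refine ⟨⋂₀ c, ⟨?_, ?_, ?_⟩, fun s hs => Set.sInter_subset_of_mem hs⟩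
    · obtain ⟨s₀, hs₀⟩ := hne
      have : (⋂ s : c, (s : Set T)).Nonempty := by
        have : Nonempty c := ⟨⟨s₀, hs₀⟩⟩
        apply IsCompact.nonempty_iInter_of_directed_nonempty_isCompact_isClosed
        · intro a b
          rcases hchain.total a.2 b.2 with h | h
          · exact ⟨a, subset_rfl, h⟩
          · exact ⟨b, h, subset_rfl⟩
        · intro a; exact (hc a.2).ne
        · intro a; exact (hc a.2).closed.isCompact
        · intro a; exact (hc a.2).closed
      rwa [Set.sInter_eq_iInter]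
    · exact isClosed_sInter fun s hs => (hc hs).closed
    · intro u v hv s hs
      exact (hc hs).add_mem u v (hv s hs)) I₀ h₀
  refine ⟨I, ⟨hmin.1, fun J hJ hJI => ?_⟩, hI⟩
  exact subset_antisymm hJI (hmin.2 hJ hJI)

theorem MinLI.exists_add_eq {I : Set T} (hI : MinLI I) (hc : ∀ v : T, Continuous (· + v))
    {x z : T} (hx : x ∈ I) (hz : z ∈ I) : ∃ u ∈ I, u + x = z := by
  have hJ : IsLI ((· + x) '' I) := by
    refine ⟨hI.li.ne.image _, ?_, ?_⟩
    · exact (hI.li.closed.isCompact.image (hc x)).isClosed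
    · rintro u _ ⟨v, hv, rfl⟩
      exact ⟨u + v, hI.li.add_mem u v hv, by simp only [add_assoc]⟩
  have hsub : (· + x) '' I ⊆ I := by
    rintro _ ⟨v, hv, rfl⟩
    exact hI.li.add_mem v x hx
  have := hI.min _ hJ hsub
  rw [← this] at hz
  obtain ⟨u, hu, h⟩ := hz
  exact ⟨u, hu, h⟩

/-- an idempotent in the intersection of a right ideal `ρ + T` and a left ideal `T + θ` -/
theorem exists_idem_between (hc : ∀ v : T, Continuous (· + v)) (ρ θ : T) :
    ∃ E u v : T, E + E = E ∧ E = ρ + u ∧ E = v + θ := by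
  have h₀ : IsLI (Set.range (· + θ)) := by
    refine ⟨⟨_, θ, rfl⟩, ?_, ?_⟩
    · rw [← Set.image_univ]
      exact (isCompact_univ.image (hc θ)).isClosed
    · rintro u _ ⟨v, rfl⟩
      exact ⟨u + v, by simp only [add_assoc]⟩
  obtain ⟨L, hL, hLθ⟩ := exists_minLI _ h₀
  obtain ⟨l, hl⟩ := hL.li.ne
  have hx : ρ + l ∈ L := hL.li.add_mem _ _ hl
  set x := ρ + l with hxdef
  obtain ⟨f, ⟨hfL, hfx⟩, hff⟩ := exists_idempotent_in_compact_add_subsemigroup hc
    (L ∩ {v | v + x = x}) (by
      obtain ⟨u, hu, h⟩ := hL.exists_add_eq hc hx hx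
      exact ⟨u, hu, h⟩)
    (by
      apply IsClosed.isCompact
      exact hL.li.closed.inter (isClosed_eq (hc x) continuous_const))
    (by
      rintro u ⟨hu, hux⟩ v ⟨hv, hvx⟩
      refine ⟨hL.li.add_mem u v hv, ?_⟩
      show u + v + x = x
      rw [add_assoc, show v + x = x from hvx]
      exact hux)
  have hfx' : f + x = x := hfx
  obtain ⟨g, hgL, hg⟩ := hL.exists_add_eq hc hx hfL
  have hg' : (f + g) + x = f := by rw [add_assoc, hg, hff]
  have hE : x + (f + g) + (x + (f + g)) = x + (f + g) := by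
    calc x + (f + g) + (x + (f + g)) = x + (((f + g) + x) + (f + g)) := by
          simp only [add_assoc]
      _ = x + (f + (f + g)) := by rw [hg']
      _ = x + (f + g) := by rw [← add_assoc f f g, hff]
  have hEL : x + (f + g) ∈ L := hL.li.add_mem _ _ (hL.li.add_mem _ _ hgL)
  obtain ⟨v, hv⟩ := hLθ hEL
  refine ⟨x + (f + g), l + (f + g), v, hE, ?_, hv.symm⟩
  rw [hxdef, add_assoc]

/-- uniqueness of the idempotent below a minimal idempotent -/
theorem MinLI.idem_eq {I : Set T} (hI : MinLI I) (hc : ∀ v : T, Continuous (· + v))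
    {y e : T} (hyI : y ∈ I) (he : e + e = e) (h1 : y + e = e) (h2 : e + y = e) : e = y := by
  have heI : e ∈ I := by rw [← h2]; exact hI.li.add_mem _ _ hyI
  obtain ⟨m, _, hm⟩ := hI.exists_add_eq hc heI hyI
  have : y + e = y := by rw [← hm, add_assoc, he]
  rw [← h1, this]

theorem MinLI.absorb {I : Set T} (hI : MinLI I) (hc : ∀ v : T, Continuous (· + v))
    {y f : T} (hyI : y ∈ I) (hy : y + y = y) (hf : f + f = f) (h1 : y + f = f) : f + y = y := by
  apply hI.idem_eq hc hyI
  · calc f + y + (f + y) = f + (y + f) + y := by simp only [add_assoc]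
      _ = f + y := by rw [h1, hf]
  · rw [← add_assoc, h1]
  · rw [add_assoc, hy]

end Ideals

/-! ## Maps of ultrafilters -/

theorem continuous_add {M : Type*} [AddSemigroup M] (v : Ultrafilter M) :
    Continuous (fun u : Ultrafilter M => u + v) :=
  Ultrafilter.continuous_add_left v

theorem map_add' {M N : Type*} [AddSemigroup M] [AddSemigroup N] (φ : M → N)
    (hφ : ∀ a b, φ (a + b) = φ a + φ b) (u v : Ultrafilter M) :
    (u + v).map φ = u.map φ + v.map φ := by
  apply Ultrafilter.coe_inj.1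
  apply Filter.ext'
  intro p
  have h1 : (∀ᶠ x in ((u + v).map φ : Filter N), p x) ↔
      ∀ᶠ m in u, ∀ᶠ m' in v, p (φ (m + m')) := Iff.rfl
  have h2 : (∀ᶠ x in ((u.map φ + v.map φ : Ultrafilter N) : Filter N), p x) ↔
      ∀ᶠ m in u, ∀ᶠ m' in v, p (φ m + φ m') := Iff.rfl
  rw [h1, h2]
  simp only [hφ]

theorem eventually_add' {M : Type*} [AddSemigroup M] (U V : Ultrafilter M) (p : M → Prop) :
    (∀ᶠ m in ((U + V : Ultrafilter M) : Filter M), p m) ↔
      ∀ᶠ m in (U : Filter M), ∀ᶠ m' in (V : Filter M), p (m + m') := Iff.rfl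

theorem const_zero_add (y v : Ultrafilter ℕ) : y.map (fun _ => 0) + v = v := by
  apply Ultrafilter.coe_inj.1
  apply Filter.ext'
  intro p
  have h2 : (∀ᶠ x in ((y.map (fun _ => 0) + v : Ultrafilter ℕ) : Filter ℕ), p x) ↔
      ∀ᶠ m in (y : Filter ℕ), ∀ᶠ m' in (v : Filter ℕ), p (0 + m') := Iff.rfl
  rw [h2]
  simp only [zero_add]
  exact Filter.eventually_const

theorem add_const_zero (y v : Ultrafilter ℕ) : v + y.map (fun _ => 0) = v := by
  apply Ultrafilter.coe_inj.1
  apply Filter.ext'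
  intro p
  have h2 : (∀ᶠ x in ((v + y.map (fun _ => 0) : Ultrafilter ℕ) : Filter ℕ), p x) ↔
      ∀ᶠ m in (v : Filter ℕ), ∀ᶠ m' in (y : Filter ℕ), p (m + 0) := Iff.rfl
  rw [h2]
  simp only [add_zero, Filter.eventually_const]

/-- the ultrafilter `3 y` generates a minimal left ideal if `y` does -/
theorem three_mul_min {I : Set (Ultrafilter ℕ)} (hI : MinLI I) {y : Ultrafilter ℕ} (hy : y ∈ I)
    (u : Ultrafilter ℕ) :
    ∃ x : Ultrafilter ℕ, x + (u + y.map (fun n => 3 * n)) = y.map (fun n => 3 * n) := by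
  -- residue of `u` modulo 3
  obtain ⟨k, hk⟩ : ∃ k : Fin 3, ∀ᶠ n in (u : Filter ℕ), n % 3 = (k : ℕ) := by
    obtain ⟨k, hk⟩ := Ultrafilter.eq_pure_of_finite
      (u.map (fun n : ℕ => (⟨n % 3, Nat.mod_lt _ (by norm_num)⟩ : Fin 3)))
    refine ⟨k, ?_⟩
    have h1 : ∀ᶠ z in ((u.map (fun n : ℕ => (⟨n % 3, Nat.mod_lt _ (by norm_num)⟩ : Fin 3)) :
        Ultrafilter (Fin 3)) : Filter (Fin 3)), z = k := by
      rw [hk]
      exact (Filter.eventually_pure.2 rfl : ∀ᶠ z in (pure k : Filter (Fin 3)), z = k)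
    have h2 : ∀ᶠ n in (u : Filter ℕ),
        (⟨n % 3, Nat.mod_lt _ (by norm_num)⟩ : Fin 3) = k := h1
    filter_upwards [h2] with n hn
    exact congrArg Fin.val hn
  obtain ⟨j, hj⟩ : ∃ j : ℕ, j = 3 - (k : ℕ) := ⟨_, rfl⟩
  set u' : Ultrafilter ℕ := u.map (fun n => (n + j) / 3) with hu'
  obtain ⟨x', -, hx'⟩ := hI.exists_add_eq continuous_add (hI.li.add_mem u' y hy) hy
  refine ⟨x'.map (fun n => 3 * n + j), ?_⟩
  apply Ultrafilter.coe_inj.1
  apply Filter.ext'
  intro p
  have h1 : (∀ᶠ n in ((x'.map (fun n => 3 * n + j) +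
      (u + y.map (fun n => 3 * n)) : Ultrafilter ℕ) : Filter ℕ), p n) ↔
      ∀ᶠ a in (x' : Filter ℕ), ∀ᶠ b in (u : Filter ℕ), ∀ᶠ c in (y : Filter ℕ),
        p ((3 * a + j) + (b + 3 * c)) := Iff.rfl
  have h2 : (∀ᶠ n in ((y.map (fun n => 3 * n) : Ultrafilter ℕ) : Filter ℕ), p n) ↔
      ∀ᶠ c in (y : Filter ℕ), p (3 * c) := Iff.rfl
  have h3 : (∀ᶠ c in (y : Filter ℕ), p (3 * c)) ↔
      ∀ᶠ a in (x' : Filter ℕ), ∀ᶠ b in (u : Filter ℕ), ∀ᶠ c in (y : Filter ℕ),
        p (3 * (a + ((b + j) / 3 + c))) := by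
    conv_lhs => rw [← hx']
    exact Iff.rfl
  rw [h1, h2, h3]
  constructor
  · intro h
    filter_upwards [h] with a ha
    filter_upwards [ha, hk] with b hb hbk
    filter_upwards [hb] with c hc
    convert hc using 1
    have := k.2
    omega
  · intro h
    filter_upwards [h] with a ha
    filter_upwards [ha, hk] with b hb hbk
    filter_upwards [hb] with c hc
    convert hc using 1
    have := k.2
    omega

/-- The algebraic core: a non-zero idempotent `y` and an idempotent `E` on pairs with prescribed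
images. -/
theorem exists_core : ∃ (y : Ultrafilter ℕ) (E : Ultrafilter (ℕ × ℕ)),
    (∀ᶠ n in (y : Filter ℕ), 0 < n) ∧ y + y = y ∧ E.map (fun r => r.2) = y ∧
    E.map (fun r => r.1) = y ∧ E.map (fun r => r.1 + r.2) + y = y ∧
    E.map (fun r => 2 * r.1 + r.2) + (E.map (fun r => r.1 + 2 * r.2) + y) = y := by
  -- minimal left ideal of positive ultrafilters
  have hpos : IsLI {p : Ultrafilter ℕ | ∀ᶠ n in (p : Filter ℕ), 0 < n} := by
    refine ⟨⟨pure 1, ?_⟩, ?_, ?_⟩
    · show ∀ᶠ n in (pure 1 : Filter ℕ), 0 < n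
      rw [Filter.eventually_pure]; norm_num
    · exact ultrafilter_isClosed_basic {n : ℕ | 0 < n}
    · intro u v hv
      show ∀ᶠ n in ((u + v : Ultrafilter ℕ) : Filter ℕ), 0 < n
      rw [eventually_add']
      refine Filter.Eventually.of_forall fun m => ?_
      have hv' : ∀ᶠ n in (v : Filter ℕ), 0 < n := hv
      filter_upwards [hv'] with n hn
      omega
  obtain ⟨I, hI, hIpos⟩ := exists_minLI _ hpos
  obtain ⟨y, hyI, hy⟩ := exists_idempotent_in_compact_add_subsemigroup continuous_add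
    I hI.li.ne hI.li.closed.isCompact (fun u _ v hv => hI.li.add_mem u v hv)
  obtain ⟨E, X, v, hE, hEX, hEv⟩ := exists_idem_between continuous_add
    (y.map (fun x => ((0, x) : ℕ × ℕ)) + y.map (fun x => ((x, 0) : ℕ × ℕ)))
    (y.map (fun x => ((x, x) : ℕ × ℕ)))
  -- additivity of the five projections
  have a1 : ∀ a b : ℕ × ℕ, (a + b).2 = a.2 + b.2 := fun a b => rfl
  have a2 : ∀ a b : ℕ × ℕ, (a + b).1 = a.1 + b.1 := fun a b => rfl
  have a3 : ∀ a b : ℕ × ℕ, (a + b).1 + (a + b).2 = (a.1 + a.2) + (b.1 + b.2) := fun a b => by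
    simp only [Prod.fst_add, Prod.snd_add]; ring
  have a4 : ∀ a b : ℕ × ℕ, (a + b).1 + 2 * (a + b).2 = (a.1 + 2 * a.2) + (b.1 + 2 * b.2) :=
    fun a b => by simp only [Prod.fst_add, Prod.snd_add]; ring
  have a5 : ∀ a b : ℕ × ℕ, 2 * (a + b).1 + (a + b).2 = (2 * a.1 + a.2) + (2 * b.1 + b.2) :=
    fun a b => by simp only [Prod.fst_add, Prod.snd_add]; ring
  set E1 := E.map (fun r => r.2) with hE1
  set E2 := E.map (fun r => r.1) with hE2
  set E3 := E.map (fun r => r.1 + r.2) with hE3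
  set E4 := E.map (fun r => r.1 + 2 * r.2) with hE4
  set E5 := E.map (fun r => 2 * r.1 + r.2) with hE5
  have i1 : E1 + E1 = E1 := by rw [hE1, ← map_add' _ a1, hE]
  have i2 : E2 + E2 = E2 := by rw [hE2, ← map_add' _ a2, hE]
  have i3 : E3 + E3 = E3 := by rw [hE3, ← map_add' (fun r : ℕ × ℕ => r.1 + r.2) a3, hE]
  have i4 : E4 + E4 = E4 := by rw [hE4, ← map_add' (fun r : ℕ × ℕ => r.1 + 2 * r.2) a4, hE]
  have i5 : E5 + E5 = E5 := by rw [hE5, ← map_add' (fun r : ℕ × ℕ => 2 * r.1 + r.2) a5, hE]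
  -- left ends
  have key : ∀ (φ : ℕ × ℕ → ℕ) (hφ : ∀ a b, φ (a + b) = φ a + φ b),
      E.map φ = (y.map (fun x => φ (0, x)) + y.map (fun x => φ (x, 0))) + X.map φ := by
    intro φ hφ
    conv_lhs => rw [hEX]
    rw [map_add' φ hφ, map_add' φ hφ, Ultrafilter.map_map, Ultrafilter.map_map]
    rfl
  have keyr : ∀ (φ : ℕ × ℕ → ℕ) (hφ : ∀ a b, φ (a + b) = φ a + φ b),
      E.map φ = v.map φ + y.map (fun x => φ (x, x)) := by
    intro φ hφ
    conv_lhs => rw [hEv]
    rw [map_add' φ hφ, Ultrafilter.map_map]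
    rfl
  have hid : y.map (fun x : ℕ => x) = y := Ultrafilter.map_id' y
  have l1 : y + E1 = E1 := by
    have := key (fun r => r.2) a1
    simp only [hid, add_const_zero] at this
    rw [hE1, this, ← add_assoc, hy]
  have l2 : y + E2 = E2 := by
    have := key (fun r => r.1) a2
    simp only [hid, const_zero_add] at this
    rw [hE2, this, ← add_assoc, hy]
  have l3 : y + E3 = E3 := by
    have := key (fun r => r.1 + r.2) a3
    simp only [zero_add, add_zero, hid, hy] at this
    rw [hE3, this, ← add_assoc, hy]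
  have l5 : y + E5 = E5 := by
    have := key (fun r => 2 * r.1 + r.2) a5
    simp only [mul_zero, zero_add, add_zero, hid] at this
    rw [hE5, this, ← add_assoc, ← add_assoc, hy]
  have r1 : E1 + y = E1 := by
    have := keyr (fun r => r.2) a1
    simp only [hid] at this
    rw [hE1, this, add_assoc, hy]
  have r2 : E2 + y = E2 := by
    have := keyr (fun r => r.1) a2
    simp only [hid] at this
    rw [hE2, this, add_assoc, hy]
  have hE1y : E1 = y := hI.idem_eq continuous_add hyI i1 l1 r1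
  have hE2y : E2 = y := hI.idem_eq continuous_add hyI i2 l2 r2
  have hE3y : E3 + y = y := hI.absorb continuous_add hyI hy i3 l3
  have hE5y : E5 + y = y := hI.absorb continuous_add hyI hy i5 l5
  have h45 : E5 + E4 = E5 := by
    have h4 := keyr (fun r => r.1 + 2 * r.2) a4
    have h5 := keyr (fun r => 2 * r.1 + r.2) a5
    have e4 : (fun x : ℕ => x + 2 * x) = fun x => 3 * x := by funext x; ring
    have e5 : (fun x : ℕ => 2 * x + x) = fun x => 3 * x := by funext x; ring
    simp only [e4] at h4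
    simp only [e5] at h5
    rw [← hE4] at h4
    rw [← hE5] at h5
    obtain ⟨x, hx⟩ := three_mul_min hI hyI (v.map (fun r => r.1 + 2 * r.2))
    rw [← h4] at hx
    rw [← hx] at h5
    calc E5 + E4 = (v.map (fun r => 2 * r.1 + r.2) + (x + E4)) + E4 := by rw [← h5]
      _ = v.map (fun r => 2 * r.1 + r.2) + (x + (E4 + E4)) := by simp only [add_assoc]
      _ = E5 := by rw [i4, ← h5]
  refine ⟨y, E, hIpos hyI, hy, hE1y, hE2y, hE3y, ?_⟩
  rw [← add_assoc, h45, hE5y]

end Pool.Agent.TH459.HLS
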