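import Mathlib
import Pool.Agent.TH459.HLS

/-!
# The combinatorial construction of the sequence
-/

set_option autoImplicit false

namespace Pool.Agent.TH459.HLS

open Filter

attribute [local instance] Ultrafilter.add Ultrafilter.addSemigroup

section

variable (y : Ultrafilter ℕ) (E : Ultrafilter (ℕ × ℕ)) (A : Set ℕ)

/-- the points of `A` from which almost all translations stay in `A` -/
def St : Set ℕ := {x | x ∈ A ∧ ∀ᶠ t in (y : Filter ℕ), x + t ∈ A}

/-- partial sums that can be continued -/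
def Q (s : ℕ) : Prop := ∀ᶠ t in (y : Filter ℕ), s + t ∈ St y A

/-- partial sums that can be continued after the first half of the middle part -/
def Q' (s : ℕ) : Prop := ∀ᶠ r in (E : Filter (ℕ × ℕ)), Q y A (s + (r.1 + 2 * r.2))

variable {y E A}

theorem Q_of_mem_St (hy : y + y = y) {x : ℕ} (hx : x ∈ St y A) : Q y A x := by
  have h1 : ∀ᶠ t in (y : Filter ℕ), x + t ∈ A := hx.2
  have h2 : ∀ᶠ t in ((y + y : Ultrafilter ℕ) : Filter ℕ), x + t ∈ A := by rw [hy]; exact h1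
  rw [eventually_add'] at h2
  unfold Q
  filter_upwards [h1, h2] with t ht ht'
  refine ⟨ht, ?_⟩
  simpa only [add_assoc] using ht'

theorem Q_zero (hy : y + y = y) (hA : A ∈ y) : Q y A 0 := by
  have h1 : ∀ᶠ t in (y : Filter ℕ), t ∈ A := hA
  have h2 : ∀ᶠ t in ((y + y : Ultrafilter ℕ) : Filter ℕ), t ∈ A := by rw [hy]; exact h1
  rw [eventually_add'] at h2
  unfold Q
  filter_upwards [h1, h2] with t ht ht'
  rw [zero_add]
  exact ⟨ht, ht'⟩

/-- All requirements on the next pair. -/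
structure Good (y : Ultrafilter ℕ) (E : Ultrafilter (ℕ × ℕ)) (A : Set ℕ) (s : ℕ) (r : ℕ × ℕ) :
    Prop where
  q1 : Q y A (s + r.2)
  q2 : Q y A (s + r.1)
  q3 : Q y A (s + (r.1 + r.2))
  q5 : Q' y E A (s + (2 * r.1 + r.2))
  mem : s + r.2 ∈ A

theorem eventually_good (hy : y + y = y) (h1 : E.map (fun r => r.2) = y)
    (h2 : E.map (fun r => r.1) = y) (h3 : E.map (fun r => r.1 + r.2) + y = y)
    (h5 : E.map (fun r => 2 * r.1 + r.2) + (E.map (fun r => r.1 + 2 * r.2) + y) = y)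
    {s : ℕ} (hs : Q y A s) : ∀ᶠ r in (E : Filter (ℕ × ℕ)), Good y E A s r := by
  have e1 : ∀ᶠ r in (E : Filter (ℕ × ℕ)), s + r.2 ∈ St y A := by
    have : ∀ᶠ t in ((E.map (fun r => r.2) : Ultrafilter ℕ) : Filter ℕ), s + t ∈ St y A := by
      rw [h1]; exact hs
    exact this
  have e2 : ∀ᶠ r in (E : Filter (ℕ × ℕ)), s + r.1 ∈ St y A := by
    have : ∀ᶠ t in ((E.map (fun r => r.1) : Ultrafilter ℕ) : Filter ℕ), s + t ∈ St y A := by
      rw [h2]; exact hs
    exact this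
  have e3 : ∀ᶠ r in (E : Filter (ℕ × ℕ)), Q y A (s + (r.1 + r.2)) := by
    have : ∀ᶠ t in ((E.map (fun r => r.1 + r.2) + y : Ultrafilter ℕ) : Filter ℕ),
        s + t ∈ St y A := by
      rw [h3]; exact hs
    rw [eventually_add'] at this
    have h : ∀ᶠ r in (E : Filter (ℕ × ℕ)), ∀ᶠ t in (y : Filter ℕ),
        s + ((r.1 + r.2) + t) ∈ St y A := this
    filter_upwards [h] with r hr
    unfold Q
    filter_upwards [hr] with t ht
    simpa only [add_assoc] using ht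
  have e5 : ∀ᶠ r in (E : Filter (ℕ × ℕ)), Q' y E A (s + (2 * r.1 + r.2)) := by
    have : ∀ᶠ t in ((E.map (fun r => 2 * r.1 + r.2) + (E.map (fun r => r.1 + 2 * r.2) + y) :
        Ultrafilter ℕ) : Filter ℕ), s + t ∈ St y A := by
      rw [h5]; exact hs
    have h : ∀ᶠ r in (E : Filter (ℕ × ℕ)), ∀ᶠ r' in (E : Filter (ℕ × ℕ)),
        ∀ᶠ t in (y : Filter ℕ), s + ((2 * r.1 + r.2) + ((r'.1 + 2 * r'.2) + t)) ∈ St y A := this
    filter_upwards [h] with r hr
    unfold Q'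
    filter_upwards [hr] with r' hr'
    unfold Q
    filter_upwards [hr'] with t ht
    simpa only [add_assoc] using ht
  filter_upwards [e1, e2, e3, e5] with r hr1 hr2 hr3 hr5
  exact ⟨Q_of_mem_St hy hr1, Q_of_mem_St hy hr2, hr3, hr5, hr1.1⟩

/-- finite sets of partial sums -/
structure State (y : Ultrafilter ℕ) (E : Ultrafilter (ℕ × ℕ)) (A : Set ℕ) where
  S : Finset ℕ
  S' : Finset ℕ
  hS : ∀ s ∈ S, Q y A s
  hS' : ∀ s ∈ S', Q' y E A s

/-- one step of the construction -/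
theorem step_exists (hg : ∀ s : ℕ, Q y A s → ∀ᶠ r in (E : Filter (ℕ × ℕ)), Good y E A s r)
    (σ : State y E A) : ∃ (r : ℕ × ℕ) (τ : State y E A),
      σ.S ⊆ τ.S ∧
      (∀ s ∈ σ.S, s + r.2 ∈ τ.S ∧ s + r.1 ∈ τ.S ∧ s + (r.1 + r.2) ∈ τ.S ∧
        s + (2 * r.1 + r.2) ∈ τ.S' ∧ s + r.2 ∈ A) ∧
      (∀ s ∈ σ.S', s + (r.1 + 2 * r.2) ∈ τ.S) := by
  classical
  have h1 : ∀ᶠ r in (E : Filter (ℕ × ℕ)), ∀ s ∈ σ.S, Good y E A s r :=
    (Filter.eventually_all_finset σ.S).2 fun s hs => hg s (σ.hS s hs)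
  have h2 : ∀ᶠ r in (E : Filter (ℕ × ℕ)), ∀ s ∈ σ.S', Q y A (s + (r.1 + 2 * r.2)) :=
    (Filter.eventually_all_finset σ.S').2 fun s hs => σ.hS' s hs
  obtain ⟨r, hr1, hr2⟩ := (h1.and h2).exists
  refine ⟨r, ⟨σ.S ∪ σ.S.image (fun s => s + r.2) ∪ σ.S.image (fun s => s + r.1) ∪
      σ.S.image (fun s => s + (r.1 + r.2)) ∪ σ.S'.image (fun s => s + (r.1 + 2 * r.2)),
      σ.S.image (fun s => s + (2 * r.1 + r.2)), ?_, ?_⟩, ?_, ?_, ?_⟩
  · intro s hs
    simp only [Finset.mem_union, Finset.mem_image] at hs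
    rcases hs with (((hs | ⟨a, ha, rfl⟩) | ⟨a, ha, rfl⟩) | ⟨a, ha, rfl⟩) | ⟨a, ha, rfl⟩
    · exact σ.hS s hs
    · exact (hr1 a ha).q1
    · exact (hr1 a ha).q2
    · exact (hr1 a ha).q3
    · exact hr2 a ha
  · intro s hs
    simp only [Finset.mem_image] at hs
    obtain ⟨a, ha, rfl⟩ := hs
    exact (hr1 a ha).q5
  · intro s hs
    simp only [Finset.mem_union]
    exact Or.inl (Or.inl (Or.inl (Or.inl hs)))
  · intro s hs
    simp only [Finset.mem_union, Finset.mem_image]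
    refine ⟨?_, ?_, ?_, ?_, (hr1 s hs).mem⟩
    · exact Or.inl (Or.inl (Or.inl (Or.inr ⟨s, hs, rfl⟩)))
    · exact Or.inl (Or.inl (Or.inr ⟨s, hs, rfl⟩))
    · exact Or.inl (Or.inr ⟨s, hs, rfl⟩)
    · exact ⟨s, hs, rfl⟩
  · intro s hs
    simp only [Finset.mem_union, Finset.mem_image]
    exact Or.inr ⟨s, hs, rfl⟩

end

/-- Every member `A` of a suitable ultrafilter contains all finite sums of a sequence together with
the sums `y n + 2 * y (n+1) + y (n+2)`. -/
theorem exists_seq {y : Ultrafilter ℕ} {E : Ultrafilter (ℕ × ℕ)} {A : Set ℕ}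
    (hy : y + y = y) (h1 : E.map (fun r => r.2) = y)
    (h2 : E.map (fun r => r.1) = y) (h3 : E.map (fun r => r.1 + r.2) + y = y)
    (h5 : E.map (fun r => 2 * r.1 + r.2) + (E.map (fun r => r.1 + 2 * r.2) + y) = y)
    (hA : A ∈ y) :
    ∃ z : ℕ → ℕ, (∀ s : Finset ℕ, s.Nonempty → ∑ i ∈ s, z i ∈ A) ∧
      ∀ n, z n + 2 * z (n + 1) + z (n + 2) ∈ A := by
  classical
  have hg : ∀ s : ℕ, Q y A s → ∀ᶠ r in (E : Filter (ℕ × ℕ)), Good y E A s r :=
    fun s hs => eventually_good hy h1 h2 h3 h5 hs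
  choose rr tt ht1 ht2 ht3 using step_exists hg
  let σ : ℕ → State y E A := fun n => Nat.rec ⟨{0}, ∅, by
    intro s hs
    rw [Finset.mem_singleton] at hs
    rw [hs]
    exact Q_zero hy hA, by simp⟩ (fun _ τ => tt τ) n
  have hσ0 : (0 : ℕ) ∈ (σ 0).S := Finset.mem_singleton_self 0
  have hσs : ∀ n, σ (n + 1) = tt (σ n) := fun n => rfl
  let r : ℕ → ℕ × ℕ := fun n => rr (σ n)
  have m0 : ∀ n, (σ n).S ⊆ (σ (n + 1)).S := fun n => by rw [hσs]; exact ht1 (σ n)
  have m1 : ∀ n, ∀ s ∈ (σ n).S, s + (r n).2 ∈ (σ (n + 1)).S := fun n s hs => by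
    rw [hσs]; exact (ht2 (σ n) s hs).1
  have m2 : ∀ n, ∀ s ∈ (σ n).S, s + (r n).1 ∈ (σ (n + 1)).S := fun n s hs => by
    rw [hσs]; exact (ht2 (σ n) s hs).2.1
  have m3 : ∀ n, ∀ s ∈ (σ n).S, s + ((r n).1 + (r n).2) ∈ (σ (n + 1)).S := fun n s hs => by
    rw [hσs]; exact (ht2 (σ n) s hs).2.2.1
  have m5 : ∀ n, ∀ s ∈ (σ n).S, s + (2 * (r n).1 + (r n).2) ∈ (σ (n + 1)).S' := fun n s hs => by
    rw [hσs]; exact (ht2 (σ n) s hs).2.2.2.1
  have mA : ∀ n, ∀ s ∈ (σ n).S, s + (r n).2 ∈ A := fun n s hs => (ht2 (σ n) s hs).2.2.2.2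
  have m4 : ∀ n, ∀ s ∈ (σ n).S', s + ((r n).1 + 2 * (r n).2) ∈ (σ (n + 1)).S :=
    fun n s hs => by rw [hσs]; exact ht3 (σ n) s hs
  have z0 : ∀ n, (0 : ℕ) ∈ (σ n).S := by
    intro n
    induction n with
    | zero => exact hσ0
    | succ n ih => exact m0 n ih
  refine ⟨fun n => (r n).1 + (r (n + 1)).2, ?_, ?_⟩
  · intro F hF
    -- partial sums
    have hp : ∀ N : ℕ, (∑ i ∈ Finset.range N, ((if i ∈ F then (r i).1 else 0) +
        (if 1 ≤ i ∧ i - 1 ∈ F then (r i).2 else 0))) ∈ (σ N).S := by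
      intro N
      induction N with
      | zero => simpa using z0 0
      | succ N ih =>
        rw [Finset.sum_range_succ]
        by_cases c1 : N ∈ F <;> by_cases c2 : 1 ≤ N ∧ N - 1 ∈ F
        · rw [if_pos c1, if_pos c2]; exact m3 N _ ih
        · rw [if_pos c1, if_neg c2, add_zero]; exact m2 N _ ih
        · rw [if_neg c1, if_pos c2, zero_add]; exact m1 N _ ih
        · rw [if_neg c1, if_neg c2, add_zero, add_zero]; exact m0 N ih
    set m := F.max' hF with hm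
    have hmF : m ∈ F := F.max'_mem hF
    have hle : ∀ i ∈ F, i ≤ m := fun i hi => F.le_max' i hi
    have hfin := mA (m + 1) _ (hp (m + 1))
    have hm1 : m + 1 ∉ F := fun h => by have := hle _ h; omega
    have e1 : ∑ i ∈ Finset.range (m + 1), (if i ∈ F then (r i).1 else 0) = ∑ i ∈ F, (r i).1 := by
      rw [← Finset.sum_filter]
      apply Finset.sum_congr _ (fun _ _ => rfl)
      ext i
      simp only [Finset.mem_filter, Finset.mem_range]
      exact ⟨fun h => h.2, fun h => ⟨by have := hle i h; omega, h⟩⟩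
    have e2 : ∑ i ∈ Finset.range (m + 1), (if 1 ≤ i ∧ i - 1 ∈ F then (r i).2 else 0) +
        (r (m + 1)).2 = ∑ i ∈ F, (r (i + 1)).2 := by
      have : ∑ i ∈ Finset.range (m + 2), (if 1 ≤ i ∧ i - 1 ∈ F then (r i).2 else 0) =
          ∑ i ∈ F, (r (i + 1)).2 := by
        rw [Finset.sum_range_succ', if_neg (by omega : ¬ (1 ≤ 0 ∧ 0 - 1 ∈ F)), add_zero]
        simp only [Nat.le_add_left, Nat.add_sub_cancel, true_and]
        rw [← Finset.sum_filter]
        apply Finset.sum_congr _ (fun _ _ => rfl)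
        ext i
        simp only [Finset.mem_filter, Finset.mem_range]
        exact ⟨fun h => h.2, fun h => ⟨by have := hle i h; omega, h⟩⟩
      rw [← this, Finset.sum_range_succ _ (m + 1)]
      rw [if_pos (⟨by omega, by simpa using hmF⟩ : 1 ≤ m + 1 ∧ m + 1 - 1 ∈ F)]
    rw [Finset.sum_add_distrib] at hfin
    rw [Finset.sum_add_distrib, ← e1, ← e2, ← add_assoc]
    exact hfin
  · intro n
    have s1 := m2 n 0 (z0 n)
    have s2 := m5 (n + 1) _ s1
    have s3 := m4 (n + 2) _ s2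
    have s4 := mA (n + 3) _ s3
    convert s4 using 1
    show (r n).1 + (r (n + 1)).2 + 2 * ((r (n + 1)).1 + (r (n + 1 + 1)).2) +
      ((r (n + 2)).1 + (r (n + 2 + 1)).2) = _
    ring

/-- **Main theorem**: for every finite colouring of the natural numbers there is a sequence of
positive integers all of whose finite sums, and all sums `z n + 2 * z (n+1) + z (n+2)`, have the
same colour. -/
theorem main (k : ℕ) (c : ℕ → Fin k) : ∃ z : ℕ → ℕ, (∀ n, 0 < z n) ∧
    ∃ col : Fin k, (∀ s : Finset ℕ, s.Nonempty → c (∑ i ∈ s, z i) = col) ∧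
      ∀ n : ℕ, c (z n + 2 * z (n + 1) + z (n + 2)) = col := by
  obtain ⟨y, E, hpos, hy, h1, h2, h3, h5⟩ := exists_core
  obtain ⟨col, hcol⟩ := Ultrafilter.eq_pure_of_finite (y.map c)
  have hc : ∀ᶠ n in (y : Filter ℕ), c n = col := by
    have : ∀ᶠ z in ((y.map c : Ultrafilter (Fin k)) : Filter (Fin k)), z = col := by
      rw [hcol]
      exact (Filter.eventually_pure.2 rfl : ∀ᶠ z in (pure col : Filter (Fin k)), z = col)
    exact this
  have hA : {n : ℕ | c n = col ∧ 0 < n} ∈ y := by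
    have : ∀ᶠ n in (y : Filter ℕ), c n = col ∧ 0 < n := hc.and hpos
    exact this
  obtain ⟨z, hz1, hz2⟩ := exists_seq hy h1 h2 h3 h5 hA
  refine ⟨z, fun n => ?_, col, fun s hs => (hz1 s hs).1, fun n => (hz2 n).1⟩
  have := (hz1 {n} (Finset.singleton_nonempty n)).2
  rwa [Finset.sum_singleton] at this

end Pool.Agent.TH459.HLS
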