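import Mathlib

set_option autoImplicit false

open Filter Set

namespace Pool.Agent.TH459.Owings

/-- Transfer of a property that holds far along a sequence to the limit ultrafilter. -/
theorem map_le {v : ℕ → ℕ} (hv : ∀ m, m ≤ v m) :
    ((Ultrafilter.map v (hyperfilter ℕ) : Ultrafilter ℕ) : Filter ℕ) ≤ atTop := by
  have h1 : Tendsto v atTop atTop := tendsto_atTop_mono hv tendsto_id
  have h2 : ((hyperfilter ℕ : Ultrafilter ℕ) : Filter ℕ) ≤ atTop := by
    rw [← Nat.cofinite_eq_atTop]; exact hyperfilter_le_cofinite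
  rw [Ultrafilter.coe_map]
  exact (Filter.map_mono h2).trans h1

theorem hyper_ge (m : ℕ) : ∀ᶠ n in ((hyperfilter ℕ : Ultrafilter ℕ) : Filter ℕ), m ≤ n := by
  have h2 : ((hyperfilter ℕ : Ultrafilter ℕ) : Filter ℕ) ≤ atTop := by
    rw [← Nat.cofinite_eq_atTop]; exact hyperfilter_le_cofinite
  exact h2 (eventually_ge_atTop m)

/-- The main lemma: a system of two disjoint sets `A true`, `A false` whose limits flip when
`2r` is compared with `r + r` contains no arbitrarily long intervals. -/
theorem main_lemma (A : Bool → ℕ → Prop) (K : ℕ)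
    (hdis : ∀ x, K ≤ x → ∀ t, A t x → ¬ A (!t) x)
    (hH : ∀ r : Ultrafilter ℕ, (r : Filter ℕ) ≤ atTop → ∀ n t,
      (∀ᶠ z in (r : Filter ℕ), A t (2 * z + n)) ↔
        ∀ᶠ z in (r : Filter ℕ), ∀ᶠ z' in (r : Filter ℕ), A (!t) (z + z' + n))
    (t : Bool) (hruns : ∀ R, ∃ x, R ≤ x ∧ ∀ k < R, A t (x + k)) : False := by
  -- first rule
  have R1' : ∀ (s : Bool) (n : ℕ), ∃ m0, ∀ v, m0 ≤ v → (∀ j < m0, A s (v + j)) →
      A (!s) (2 * v + n) := by
    intro s n
    by_contra hcon
    push Not at hcon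
    choose v hv hvA hvn using hcon
    have hr := map_le hv
    set r : Ultrafilter ℕ := Ultrafilter.map v (hyperfilter ℕ) with hrdef
    have h1 : ∀ z, ∀ᶠ z' in (r : Filter ℕ), A s (z + z' + n) := by
      intro z
      rw [hrdef, Ultrafilter.coe_map, eventually_map]
      filter_upwards [hyper_ge (z + n + 1)] with m hm
      have := hvA m (z + n) (by omega)
      rwa [show v m + (z + n) = z + v m + n by ring] at this
    have h2 : ∀ᶠ z in (r : Filter ℕ), A (!s) (2 * z + n) := by
      rw [hH r hr n (!s)]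
      rw [Bool.not_not]
      exact Eventually.of_forall h1
    have h3 : ∀ᶠ z in (r : Filter ℕ), ¬ A (!s) (2 * z + n) := by
      rw [hrdef, Ultrafilter.coe_map, eventually_map]
      exact Eventually.of_forall hvn
    obtain ⟨z, hz1, hz2⟩ := (h2.and h3).exists
    exact hz2 hz1
  have R1 : ∃ m0, 1 ≤ m0 ∧ ∀ (s : Bool) (ε : ℕ), ε < 2 → ∀ v, m0 ≤ v →
      (∀ j < m0, A s (v + j)) → A (!s) (2 * v + ε) := by
    obtain ⟨a, ha⟩ := R1' true 0
    obtain ⟨b, hb⟩ := R1' true 1
    obtain ⟨c, hc⟩ := R1' false 0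
    obtain ⟨e, he⟩ := R1' false 1
    refine ⟨a + b + c + e + 1, by omega, ?_⟩
    intro s ε hε v hv hA
    cases s
    · rcases (by omega : ε = 0 ∨ ε = 1) with rfl | rfl
      · exact hc v (by omega) (fun j hj => hA j (by omega))
      · exact he v (by omega) (fun j hj => hA j (by omega))
    · rcases (by omega : ε = 0 ∨ ε = 1) with rfl | rfl
      · exact ha v (by omega) (fun j hj => hA j (by omega))
      · exact hb v (by omega) (fun j hj => hA j (by omega))
  obtain ⟨m0, hm0, hR1⟩ := R1
  set H : Bool → ℕ → Prop := fun s x => ∀ j < 2 * m0, A s (x + j) with hHdef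
  -- persistence
  have P : ∀ s y, m0 ≤ y → H s y → ∀ i ≤ 2, H (!s) (2 * y + i) := by
    intro s y hy hHy i hi j hj
    have h1 := hR1 s ((i + j) % 2) (Nat.mod_lt _ (by norm_num)) (y + (i + j) / 2) (by omega)
      (fun j' hj' => by
        have := hHy ((i + j) / 2 + j') (by omega)
        rwa [← add_assoc] at this)
    have h2 : 2 * (y + (i + j) / 2) + (i + j) % 2 = 2 * y + i + j := by omega
    rwa [h2] at h1
  -- second rule
  have Q : ∀ s : Bool, ∃ m1, ∀ v, m1 ≤ v → (∀ j < m1, ¬ H s (v + j)) → ¬ H (!s) (2 * v) := by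
    intro s
    by_contra hcon
    push Not at hcon
    choose v hv hvA hvn using hcon
    have hr := map_le hv
    set r : Ultrafilter ℕ := Ultrafilter.map v (hyperfilter ℕ) with hrdef
    have h1 : ∀ z, ∀ᶠ z' in (r : Filter ℕ), ¬ H s (z + z') := by
      intro z
      rw [hrdef, Ultrafilter.coe_map, eventually_map]
      filter_upwards [hyper_ge (z + 1)] with m hm
      have := hvA m z (by omega)
      rwa [add_comm] at this
    have h3 : ∀ᶠ z in (r : Filter ℕ), H (!s) (2 * z) := by
      rw [hrdef, Ultrafilter.coe_map, eventually_map]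
      exact Eventually.of_forall hvn
    have h4 : ∀ j ∈ Finset.range (2 * m0), ∀ᶠ z in (r : Filter ℕ), ∀ᶠ z' in (r : Filter ℕ),
        A s (z + z' + j) := by
      intro j hj
      have h5 : ∀ᶠ z in (r : Filter ℕ), A (!s) (2 * z + j) := by
        filter_upwards [h3] with z hz
        exact hz j (Finset.mem_range.1 hj)
      rw [hH r hr j (!s), Bool.not_not] at h5
      exact h5
    have h6 := (eventually_all_finset (Finset.range (2 * m0))).2 h4
    obtain ⟨z, hz⟩ := h6.exists
    have h7 := (eventually_all_finset (Finset.range (2 * m0))).2 hz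
    obtain ⟨z', hz1, hz2⟩ := (h7.and (h1 z)).exists
    exact hz2 (fun j hj => hz1 j (Finset.mem_range.2 hj))
  obtain ⟨m1, hQ⟩ := Q t
  -- choose the long interval
  obtain ⟨a, ha, hrun⟩ := hruns (m0 + m1 + K + 1 + 2 * m0 + m1)
  have hI : ∀ y, a ≤ y → y ≤ a + m1 → H t y := by
    intro y hy1 hy2 j hj
    have := hrun (y - a + j) (by omega)
    rwa [show a + (y - a + j) = y + j by omega] at this
  have hJ : ∀ y, 2 * a ≤ y → y ≤ 2 * a + m1 → H (!t) y := by
    intro y hy1 hy2
    have h1 := P t (y / 2) (by omega) (hI (y / 2) (by omega) (by omega)) (y % 2) (by omega)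
    rwa [show 2 * (y / 2) + y % 2 = y by omega] at h1
  classical
  set e := Nat.findGreatest (fun p => H t p) (2 * a - 1) with he
  have he1 : a ≤ e := Nat.le_findGreatest (by omega) (hI a le_rfl (by omega))
  have he2 : H t e := Nat.findGreatest_spec (P := fun p => H t p) (m := a) (by omega)
    (hI a le_rfl (by omega))
  have he3 : e ≤ 2 * a - 1 := Nat.findGreatest_le _
  have he4 : ∀ p, e < p → p ≤ 2 * a - 1 → ¬ H t p := fun p hp1 hp2 =>
    Nat.findGreatest_is_greatest (P := fun p => H t p) hp1 hp2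
  have h1 := hQ (e + 1) (by omega) (fun j hj => by
    by_cases hc : e + 1 + j ≤ 2 * a - 1
    · exact he4 _ (by omega) hc
    · intro hHt
      have h2 := hJ (e + 1 + j) (by omega) (by omega)
      have h3 := hHt 0 (by omega)
      have h4 := h2 0 (by omega)
      exact hdis _ (by omega) t h3 h4)
  exact h1 (P t e (by omega) he2 2 le_rfl)

end Pool.Agent.TH459.Owings
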