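import Mathlib
import Pool.Agent.TH459.OwingsA

set_option autoImplicit false

open Filter Set

namespace Pool.Agent.TH459.Owings

/-! ### Limits of Boolean sequences along an ultrafilter -/

open Classical in
/-- The limit of a Boolean sequence along an ultrafilter. -/
noncomputable def ulim (r : Ultrafilter ℕ) (f : ℕ → Bool) : Bool :=
  decide (∀ᶠ z in (r : Filter ℕ), f z = true)

theorem ulim_spec (r : Ultrafilter ℕ) (f : ℕ → Bool) : ∀ᶠ z in (r : Filter ℕ), f z = ulim r f := by
  unfold ulim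
  by_cases h : ∀ᶠ z in (r : Filter ℕ), f z = true
  · simp [h]
  · have h2 := h
    rw [← Ultrafilter.eventually_not] at h2
    filter_upwards [h2] with z hz
    simp [h]
    simpa using hz

theorem ulim_eq {r : Ultrafilter ℕ} {f : ℕ → Bool} {b : Bool}
    (h : ∀ᶠ z in (r : Filter ℕ), f z = b) : ulim r f = b := by
  obtain ⟨z, h1, h2⟩ := (h.and (ulim_spec r f)).exists
  rw [← h2, h1]

theorem ulim_congr {r : Ultrafilter ℕ} {f g : ℕ → Bool}
    (h : ∀ᶠ z in (r : Filter ℕ), f z = g z) : ulim r f = ulim r g := by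
  apply ulim_eq
  filter_upwards [h, ulim_spec r g] with z h1 h2
  rw [h1, h2]

theorem ulim_map (r : Ultrafilter ℕ) (v : ℕ → ℕ) (f : ℕ → Bool) :
    ulim (Ultrafilter.map v r) f = ulim r (fun z => f (v z)) := by
  apply ulim_eq
  rw [Ultrafilter.coe_map, eventually_map]
  exact ulim_spec r (fun z => f (v z))

/-- `c` is constant on `X + X`. -/
def Mono (c : ℕ → Bool) (X : Set ℕ) : Prop := ∃ b, ∀ x ∈ X, ∀ y ∈ X, c (x + y) = b

/-- The limit along `2r` is the opposite of the limit along `r + r`. -/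
theorem flip {c : ℕ → Bool} (hc : ∀ X : Set ℕ, X.Infinite → ¬ Mono c X) {r : Ultrafilter ℕ}
    (hr : (r : Filter ℕ) ≤ atTop) (n : ℕ) :
    ulim r (fun z => c (2 * (2 * z + n))) =
      !(ulim r (fun z => ulim r (fun z' => c (2 * (z + z' + n))))) := by
  by_contra hne
  have heq : ulim r (fun z => ulim r (fun z' => c (2 * (z + z' + n)))) =
      ulim r (fun z => c (2 * (2 * z + n))) := by
    revert hne
    generalize ulim r (fun z => ulim r (fun z' => c (2 * (z + z' + n)))) = x
    generalize ulim r (fun z => c (2 * (2 * z + n))) = y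
    cases x <;> cases y <;> simp
  set b := ulim r (fun z => c (2 * (2 * z + n))) with hb
  have h1 : ∀ᶠ z in (r : Filter ℕ), c (2 * (2 * z + n)) = b := ulim_spec r _
  have h2 : ∀ᶠ z in (r : Filter ℕ), ulim r (fun z' => c (2 * (z + z' + n))) = b := by
    have := ulim_spec r (fun z => ulim r (fun z' => c (2 * (z + z' + n))))
    rwa [heq] at this
  obtain ⟨f, hf1, hf2⟩ := exists_seq_of_forall_finset_exists
    (fun z => c (2 * (2 * z + n)) = b ∧ ulim r (fun z' => c (2 * (z + z' + n))) = b)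
    (fun x y => x < y ∧ c (2 * (x + y + n)) = b) (by
      intro s hs
      have h3 : ∀ᶠ y in (r : Filter ℕ), ∀ x ∈ s, x < y ∧ c (2 * (x + y + n)) = b := by
        rw [eventually_all_finset]
        intro x hx
        have h4 := ulim_spec r (fun z' => c (2 * (x + z' + n)))
        rw [(hs x hx).2] at h4
        have h5 : ∀ᶠ y in (r : Filter ℕ), x < y := hr (eventually_gt_atTop x)
        exact h5.and h4
      obtain ⟨y, ⟨hy1, hy2⟩, hy3⟩ := ((h1.and h2).and h3).exists
      exact ⟨y, ⟨hy1, hy2⟩, hy3⟩)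
  have hmono : StrictMono f := strictMono_nat_of_lt_succ (fun m =>
    (hf2 m (m + 1) (Nat.lt_succ_self m)).1)
  refine hc (Set.range (fun i => 2 * f i + n)) ?_ ⟨b, ?_⟩
  · apply Set.infinite_range_of_injective
    intro i j hij
    apply hmono.injective
    simp only at hij
    omega
  · rintro _ ⟨i, rfl⟩ _ ⟨j, rfl⟩
    simp only
    rcases lt_trichotomy i j with h | h | h
    · have := (hf2 i j h).2
      rwa [show 2 * (f i + f j + n) = 2 * f i + n + (2 * f j + n) by ring] at this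
    · subst h
      have := (hf1 i).1
      rwa [show 2 * (2 * f i + n) = 2 * f i + n + (2 * f i + n) by ring] at this
    · have := (hf2 j i h).2
      rwa [show 2 * (f j + f i + n) = 2 * f i + n + (2 * f j + n) by ring] at this

/-! ### Cylinder sets -/

theorem isOpen_fin (F : Finset ℕ) (P : (ℕ → Bool) → Prop)
    (hP : ∀ ξ η : ℕ → Bool, (∀ k ∈ F, ξ k = η k) → (P ξ ↔ P η)) : IsOpen {ξ | P ξ} := by
  rw [isOpen_iff_forall_mem_open]
  intro ξ hξ
  refine ⟨{η | ∀ k ∈ F, η k = ξ k}, ?_, ?_, ?_⟩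
  · intro η hη
    exact (hP η ξ hη).2 hξ
  · have : {η : ℕ → Bool | ∀ k ∈ F, η k = ξ k} = (F : Set ℕ).pi (fun k => {ξ k}) := by
      ext η
      simp [Set.pi]
    rw [this]
    exact isOpen_set_pi F.finite_toSet (fun _ _ => isOpen_discrete _)
  · intro k _
    rfl

theorem isClosed_fin (F : Finset ℕ) (P : (ℕ → Bool) → Prop)
    (hP : ∀ ξ η : ℕ → Bool, (∀ k ∈ F, ξ k = η k) → (P ξ ↔ P η)) : IsClosed {ξ | P ξ} := by
  rw [← isOpen_compl_iff]
  exact isOpen_fin F (fun ξ => ¬ P ξ) (fun ξ η h => not_congr (hP ξ η h))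

theorem cyl_of_open {U : Set (ℕ → Bool)} (hU : IsOpen U) {ξ : ℕ → Bool} (hξ : ξ ∈ U) :
    ∃ K, ∀ η : ℕ → Bool, (∀ k < K, η k = ξ k) → η ∈ U := by
  rw [isOpen_pi_iff] at hU
  obtain ⟨I, u, hu, hI⟩ := hU ξ hξ
  refine ⟨I.sup id + 1, fun η hη => hI ?_⟩
  intro k hk
  have hk' : k ≤ I.sup id := Finset.le_sup (f := id) hk
  rw [hη k (by omega)]
  exact (hu k hk).2

end Pool.Agent.TH459.Owings
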