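import Mathlib
import Pool.Agent.TH459.OwingsB

set_option autoImplicit false

open Filter Set

namespace Pool.Agent.TH459.Owings

/-- Nonempty closed sets of one-sided Boolean sequences which are invariant under the shift and
under complementation. -/
def Inv (N : Set (ℕ → Bool)) : Prop :=
  IsClosed N ∧ N.Nonempty ∧ (∀ ξ ∈ N, (fun k => ξ (k + 1)) ∈ N) ∧ (∀ ξ ∈ N, (fun k => !ξ k) ∈ N)

/-- Sequences which, up to complementation, are limits of shifts of `d`. -/
def Y (d : ℕ → Bool) : Set (ℕ → Bool) :=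
  {ξ | ∀ R, ∃ x, R ≤ x ∧ ∃ b : Bool, ∀ k < R, d (x + k) = (b ^^ ξ k)}

theorem inv_Y (d : ℕ → Bool) : Inv (Y d) := by
  refine ⟨?_, ?_, ?_, ?_⟩
  · have : Y d = ⋂ R : ℕ, {ξ : ℕ → Bool | ∃ x, R ≤ x ∧ ∃ b : Bool, ∀ k < R, d (x + k) = (b ^^ ξ k)} := by
      ext ξ
      simp [Y]
    rw [this]
    refine isClosed_iInter (fun R => isClosed_fin (Finset.range R) _ ?_)
    intro ξ η h
    constructor
    · rintro ⟨x, hx, b, hb⟩
      exact ⟨x, hx, b, fun k hk => by rw [← h k (Finset.mem_range.2 hk)]; exact hb k hk⟩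
    · rintro ⟨x, hx, b, hb⟩
      exact ⟨x, hx, b, fun k hk => by rw [h k (Finset.mem_range.2 hk)]; exact hb k hk⟩
  · have hr : ((Ultrafilter.map id (hyperfilter ℕ) : Ultrafilter ℕ) : Filter ℕ) ≤ atTop :=
      map_le (fun m => le_rfl)
    set r : Ultrafilter ℕ := Ultrafilter.map id (hyperfilter ℕ)
    refine ⟨fun k => ulim r (fun z => d (z + k)), ?_⟩
    intro R
    have h1 : ∀ᶠ z in (r : Filter ℕ), ∀ k ∈ Finset.range R, d (z + k) = ulim r (fun z => d (z + k)) := by
      rw [eventually_all_finset]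
      intro k _
      exact ulim_spec r _
    have h2 : ∀ᶠ z in (r : Filter ℕ), R ≤ z := hr (eventually_ge_atTop R)
    obtain ⟨x, hx1, hx2⟩ := (h1.and h2).exists
    exact ⟨x, hx2, false, fun k hk => by rw [hx1 k (Finset.mem_range.2 hk)]; simp⟩
  · intro ξ hξ R
    obtain ⟨x, hx, b, hb⟩ := hξ (R + 1)
    refine ⟨x + 1, by omega, b, fun k hk => ?_⟩
    have := hb (k + 1) (by omega)
    rwa [show x + (k + 1) = x + 1 + k by ring] at this
  · intro ξ hξ R
    obtain ⟨x, hx, b, hb⟩ := hξ R
    refine ⟨x, hx, !b, fun k hk => ?_⟩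
    rw [hb k hk]
    cases b <;> simp

theorem exists_min (d : ℕ → Bool) :
    ∃ N, Inv N ∧ N ⊆ Y d ∧ ∀ N', Inv N' → N' ⊆ N → N' = N := by
  obtain ⟨N, hN1, hN2⟩ := zorn_superset_nonempty {N : Set (ℕ → Bool) | Inv N} (by
    intro c hc hchain hne
    have : Nonempty c := hne.to_subtype
    refine ⟨⋂₀ c, ⟨isClosed_sInter (fun s hs => (hc hs).1), ?_, ?_, ?_⟩,
      fun s hs => sInter_subset_of_mem hs⟩
    · apply IsCompact.nonempty_sInter_of_directed_nonempty_isCompact_isClosed
      · intro a ha b hb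
        rcases hchain.total ha hb with h | h
        · exact ⟨a, ha, subset_rfl, h⟩
        · exact ⟨b, hb, h, subset_rfl⟩
      · exact fun U hU => (hc hU).2.1
      · exact fun U hU => (hc hU).1.isCompact
      · exact fun U hU => (hc hU).1
    · intro ξ hξ s hs
      exact (hc hs).2.2.1 ξ (hξ s hs)
    · intro ξ hξ s hs
      exact (hc hs).2.2.2 ξ (hξ s hs)) (Y d) (inv_Y d)
  refine ⟨N, hN2.prop, hN1, fun N' h1 h2 => ?_⟩
  exact subset_antisymm h2 (hN2.le_of_le h1 h2)

theorem shift_mem {N : Set (ℕ → Bool)} (hN : Inv N) {ξ : ℕ → Bool} (hξ : ξ ∈ N) (j : ℕ) :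
    (fun k => ξ (j + k)) ∈ N := by
  induction j with
  | zero => simpa using hξ
  | succ j ih =>
    have h1 := hN.2.2.1 _ ih
    have h2 : (fun k => ξ (j + 1 + k)) = fun k => ξ (j + (k + 1)) := by
      funext k
      congr 1
      omega
    rw [h2]
    exact h1

theorem xor_mem {N : Set (ℕ → Bool)} (hN : Inv N) {ξ : ℕ → Bool} (hξ : ξ ∈ N) (b : Bool) :
    (fun k => (b ^^ ξ k)) ∈ N := by
  cases b
  · simpa using hξ
  · simpa using hN.2.2.2 ξ hξ

/-- Uniform occurrence of a word (or of its complement) in a minimal set. -/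
theorem syndetic {N : Set (ℕ → Bool)} (hN : Inv N) (hmin : ∀ N', Inv N' → N' ⊆ N → N' = N)
    {u : ℕ → Bool} (hu : u ∈ N) (K : ℕ) :
    ∃ m, ∀ ξ ∈ N, ∃ p < m, ∃ b : Bool, ∀ k < K, ξ (p + k) = (b ^^ u k) := by
  by_contra hcon
  push Not at hcon
  choose ξ hξN hξ using hcon
  have hr : ((Ultrafilter.map id (hyperfilter ℕ) : Ultrafilter ℕ) : Filter ℕ) ≤ atTop :=
    map_le (fun m => le_rfl)
  set r : Ultrafilter ℕ := Ultrafilter.map id (hyperfilter ℕ)
  -- the set of all elements of `N` without occurrences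
  set F : Set (ℕ → Bool) := {η | η ∈ N ∧ ∀ p, ∀ b : Bool, ¬ ∀ k < K, η (p + k) = (b ^^ u k)} with hF
  have hFN : F ⊆ N := fun η h => h.1
  have hFinv : Inv F := by
    refine ⟨?_, ?_, ?_, ?_⟩
    · have : F = N ∩ ⋂ p : ℕ, ⋂ b : Bool, {η : ℕ → Bool | ¬ ∀ k < K, η (p + k) = (b ^^ u k)} := by
        ext η
        simp [hF]
      rw [this]
      refine hN.1.inter (isClosed_iInter (fun p => isClosed_iInter (fun b =>
        isClosed_fin (Finset.range (p + K)) _ ?_)))
      intro ξ η h
      apply not_congr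
      constructor
      · intro h1 k hk
        rw [← h (p + k) (Finset.mem_range.2 (by omega))]
        exact h1 k hk
      · intro h1 k hk
        rw [h (p + k) (Finset.mem_range.2 (by omega))]
        exact h1 k hk
    · refine ⟨fun k => ulim r (fun m => ξ m k), ?_, ?_⟩
      · by_contra hnot
        obtain ⟨L, hL⟩ := cyl_of_open hN.1.isOpen_compl (Set.mem_compl hnot)
        have h1 : ∀ᶠ m in (r : Filter ℕ), ∀ k ∈ Finset.range L, ξ m k = ulim r (fun m => ξ m k) := by
          rw [eventually_all_finset]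
          intro k _
          exact ulim_spec r _
        obtain ⟨m, hm⟩ := h1.exists
        exact hL (ξ m) (fun k hk => hm k (Finset.mem_range.2 hk)) (hξN m)
      · intro p b hall
        have h1 : ∀ᶠ m in (r : Filter ℕ), ∀ k ∈ Finset.range (p + K),
            ξ m k = ulim r (fun m => ξ m k) := by
          rw [eventually_all_finset]
          intro k _
          exact ulim_spec r _
        have h2 : ∀ᶠ m in (r : Filter ℕ), p + 1 ≤ m := hr (eventually_ge_atTop (p + 1))
        obtain ⟨m, hm1, hm2⟩ := (h1.and h2).exists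
        obtain ⟨k, hk, hne⟩ := hξ m p (by omega) b
        apply hne
        rw [hm1 (p + k) (Finset.mem_range.2 (by omega))]
        exact hall k hk
    · rintro η ⟨h1, h2⟩
      refine ⟨hN.2.2.1 η h1, fun p b hall => h2 (p + 1) b (fun k hk => ?_)⟩
      have := hall k hk
      simp only at this
      rwa [show p + k + 1 = p + 1 + k by ring] at this
    · rintro η ⟨h1, h2⟩
      refine ⟨hN.2.2.2 η h1, fun p b hall => h2 p (!b) (fun k hk => ?_)⟩
      have := hall k hk
      simp only at this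
      revert this
      cases η (p + k) <;> cases b <;> cases u k <;> simp
  have hEq := hmin F hFinv hFN
  have : u ∈ F := by rw [hEq]; exact hu
  exact this.2 0 false (fun k hk => by simp)

end Pool.Agent.TH459.Owings
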