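import Mathlib
import Pool.Agent.TH459.OwingsC

set_option autoImplicit false

open Filter Set

namespace Pool.Agent.TH459.Owings

/-- The flip property of a colouring: the limit along `2r` is opposite to that along `r + r`. -/
def Flip (d : ℕ → Bool) : Prop :=
  ∀ r : Ultrafilter ℕ, (r : Filter ℕ) ≤ atTop → ∀ n,
    ulim r (fun z => d (2 * z + n)) = !(ulim r (fun z => ulim r (fun z' => d (z + z' + n))))

theorem star {d : ℕ → Bool} (hd : Flip d) (ξ : ℕ → Bool) :
    ∃ L, ∀ b : Bool, ∀ z, L ≤ z → (∀ k < L, d (z + k) = (b ^^ ξ k)) → d (2 * z) = !(b ^^ ξ z) := by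
  by_contra hcon
  push Not at hcon
  choose b v hv hm hne using hcon
  have hr := map_le hv
  set B := ulim (hyperfilter ℕ) b with hB
  have hBev : ∀ᶠ m in ((hyperfilter ℕ : Ultrafilter ℕ) : Filter ℕ), b m = B := ulim_spec _ _
  set r : Ultrafilter ℕ := Ultrafilter.map v (hyperfilter ℕ) with hrdef
  have h1 : ∀ z, ulim r (fun z' => d (z + z' + 0)) = (B ^^ ξ z) := by
    intro z
    apply ulim_eq
    rw [hrdef, Ultrafilter.coe_map, eventually_map]
    filter_upwards [hyper_ge (z + 1), hBev] with m hm1 hm2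
    have := hm m z (by omega)
    rw [hm2] at this
    rw [← this]
    congr 1
    omega
  have h2 : ulim r (fun z => d (2 * z + 0)) = ulim r (fun z => (B ^^ ξ z)) := by
    apply ulim_congr
    rw [hrdef, Ultrafilter.coe_map, eventually_map]
    filter_upwards [hBev] with m hm2
    have := hne m
    rw [hm2] at this
    rw [add_zero]
    revert this
    cases d (2 * v m) <;> cases (B ^^ ξ (v m)) <;> simp
  have h3 := hd r hr 0
  rw [h2] at h3
  simp only [h1] at h3
  revert h3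
  cases ulim r (fun z => (B ^^ ξ z)) <;> simp

theorem baire {d : ℕ → Bool} (hd : Flip d) {N : Set (ℕ → Bool)} (hN : Inv N) :
    ∃ u ∈ N, ∃ K, ∀ ξ ∈ N, (∀ k < K, ξ k = u k) → ∀ b : Bool, ∀ z, K ≤ z →
      (∀ k < K, d (z + k) = (b ^^ u k)) → d (2 * z) = !(b ^^ ξ z) := by
  have : CompactSpace N := isCompact_iff_compactSpace.1 hN.1.isCompact
  have : Nonempty N := hN.2.1.to_subtype
  set f : ℕ → Set N := fun L => {x | ∀ b : Bool, ∀ z, L ≤ z → (∀ k < L, d (z + k) = (b ^^ x.1 k)) →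
    d (2 * z) = !(b ^^ x.1 z)} with hf
  have hclosed : ∀ L, IsClosed (f L) := by
    intro L
    have : f L = Subtype.val ⁻¹' (⋂ b : Bool, ⋂ z : ℕ, {ξ : ℕ → Bool | L ≤ z →
        (∀ k < L, d (z + k) = (b ^^ ξ k)) → d (2 * z) = !(b ^^ ξ z)}) := by
      ext x
      simp [hf]
    rw [this]
    refine IsClosed.preimage continuous_subtype_val (isClosed_iInter (fun b => isClosed_iInter
      (fun z => isClosed_fin (Finset.range (L + z + 1)) _ ?_)))
    intro ξ η h
    have hz : ξ z = η z := h z (Finset.mem_range.2 (by omega))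
    have hk : ∀ k < L, ξ k = η k := fun k hk => h k (Finset.mem_range.2 (by omega))
    rw [hz]
    constructor
    · intro h1 h2 h3
      exact h1 h2 (fun k hk' => by rw [hk k hk']; exact h3 k hk')
    · intro h1 h2 h3
      exact h1 h2 (fun k hk' => by rw [← hk k hk']; exact h3 k hk')
  have hunion : ⋃ L, f L = univ := by
    rw [eq_univ_iff_forall]
    intro x
    obtain ⟨L, hL⟩ := star hd x.1
    exact mem_iUnion.2 ⟨L, hL⟩
  obtain ⟨L, x0, hx0⟩ := nonempty_interior_of_iUnion_of_closed hclosed hunion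
  rw [mem_interior] at hx0
  obtain ⟨t, htf, ht, hxt⟩ := hx0
  obtain ⟨U, hU, rfl⟩ := isOpen_induced_iff.1 ht
  obtain ⟨K0, hK0⟩ := cyl_of_open hU hxt
  refine ⟨x0.1, x0.2, K0 + L, ?_⟩
  intro ξ hξ hξu b z hz hdz
  have h1 : ξ ∈ U := hK0 ξ (fun k hk => hξu k (by omega))
  have h2 : (⟨ξ, hξ⟩ : N) ∈ f L := htf h1
  refine h2 b z (by omega) (fun k hk => ?_)
  rw [hdz k (by omega)]
  simp only
  rw [hξu k (by omega)]

/-- All occurrences of the word in a common block have the same colour after doubling. -/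
theorem claim {d : ℕ → Bool} {N : Set (ℕ → Bool)} (hN : Inv N) {u : ℕ → Bool} {K : ℕ}
    (hu : ∀ ξ ∈ N, (∀ k < K, ξ k = u k) → ∀ b : Bool, ∀ z, K ≤ z →
      (∀ k < K, d (z + k) = (b ^^ u k)) → d (2 * z) = !(b ^^ ξ z))
    {η : ℕ → Bool} (hη : η ∈ N) {z j : ℕ} (hz : K ≤ z) {b b' : Bool}
    (h1 : ∀ k < K, η k = (b ^^ u k)) (h2 : ∀ k < K, η (j + k) = (b' ^^ u k))
    (h3 : ∀ k < K, d (z + k) = (b ^^ u k)) (h4 : ∀ k < K, d (z + j + k) = (b' ^^ u k)) :
    d (2 * z) = d (2 * (z + j)) := by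
  have e1 := hu _ (xor_mem hN hη b) (fun k hk => by rw [h1 k hk]; simp) b' (z + j)
    (by omega) h4
  have e2 := hu _ (xor_mem hN (shift_mem hN hη j) b') (fun k hk => by
    rw [h2 k hk]; simp) b z hz h3
  rw [e1, e2, show j + z = z + j by ring]
  cases b <;> cases b' <;> simp

end Pool.Agent.TH459.Owings
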