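import Mathlib
import Pool.Agent.TH459.OwingsD

set_option autoImplicit false

open Filter Set

namespace Pool.Agent.TH459.Owings

section

variable (N : Set (ℕ → Bool)) (u : ℕ → Bool) (K m : ℕ)

/-- The local rule: `W` is the local pattern, `V` the pattern of the doubled points. -/
def Phi (t : Bool) (W V : ℕ → Bool) : Prop :=
  (∃ η ∈ N, ∀ k < m + K, η k = W k) ∧
    ∃ p < m, ∃ b : Bool, (∀ k < K, W (p + k) = (b ^^ u k)) ∧ V p = t

theorem phi_congr {t : Bool} {W W' V V' : ℕ → Bool} (h1 : ∀ k ∈ Finset.range (m + K), W k = W' k)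
    (h2 : ∀ k ∈ Finset.range m, V k = V' k) (h : Phi N u K m t W V) : Phi N u K m t W' V' := by
  obtain ⟨⟨η, hη, hW⟩, p, hp, b, hb, hV⟩ := h
  refine ⟨⟨η, hη, fun k hk => ?_⟩, p, hp, b, fun k hk => ?_, ?_⟩
  · rw [← h1 k (Finset.mem_range.2 hk)]; exact hW k hk
  · rw [← h1 (p + k) (Finset.mem_range.2 (by omega))]; exact hb k hk
  · rw [← h2 p (Finset.mem_range.2 hp)]; exact hV

theorem phi_not (hN : Inv N) {t : Bool} {W V : ℕ → Bool} (h : Phi N u K m t W V) :
    Phi N u K m (!t) (fun k => !W k) (fun k => !V k) := by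
  obtain ⟨⟨η, hη, hW⟩, p, hp, b, hb, hV⟩ := h
  refine ⟨⟨fun k => !η k, hN.2.2.2 η hη, fun k hk => ?_⟩, p, hp, !b, fun k hk => ?_, ?_⟩
  · simp only; rw [hW k hk]
  · simp only; rw [hb k hk]; cases b <;> simp
  · simp only; rw [hV]

end

theorem eventually_phi {N : Set (ℕ → Bool)} {u : ℕ → Bool} {K m : ℕ} {t : Bool}
    (r : Ultrafilter ℕ) (W V : ℕ → ℕ → Bool) :
    (∀ᶠ z in (r : Filter ℕ), Phi N u K m t (W z) (V z)) ↔
      Phi N u K m t (fun k => ulim r (fun z => W z k)) (fun k => ulim r (fun z => V z k)) := by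
  have h1 : ∀ᶠ z in (r : Filter ℕ), ∀ k ∈ Finset.range (m + K), W z k = ulim r (fun z => W z k) := by
    rw [eventually_all_finset]
    exact fun k _ => ulim_spec r _
  have h2 : ∀ᶠ z in (r : Filter ℕ), ∀ k ∈ Finset.range m, V z k = ulim r (fun z => V z k) := by
    rw [eventually_all_finset]
    exact fun k _ => ulim_spec r _
  constructor
  · intro h
    obtain ⟨z, ⟨hz, hz1⟩, hz2⟩ := ((h.and h1).and h2).exists
    exact phi_congr N u K m hz1 hz2 hz
  · intro h
    filter_upwards [h1, h2] with z hz1 hz2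
    exact phi_congr N u K m (fun k hk => (hz1 k hk).symm) (fun k hk => (hz2 k hk).symm) h

theorem no_flip (d : ℕ → Bool) (hd : Flip d) : False := by
  obtain ⟨N, hN, hNY, hmin⟩ := exists_min d
  obtain ⟨u, huN, K, hu⟩ := baire hd hN
  obtain ⟨m, hm⟩ := syndetic hN hmin huN K
  set A : Bool → ℕ → Prop := fun t x =>
    Phi N u K m t (fun k => d (x + k)) (fun p => d (2 * (x + p))) with hA
  -- all occurrences in a common block give the same value
  have hclaim : ∀ x, K ≤ x → ∀ R, ∀ η ∈ N, (∀ k < R, η k = d (x + k)) → ∀ p q, p + K ≤ R →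
      q + K ≤ R → ∀ b b' : Bool, (∀ k < K, d (x + p + k) = (b ^^ u k)) →
      (∀ k < K, d (x + q + k) = (b' ^^ u k)) → d (2 * (x + p)) = d (2 * (x + q)) := by
    intro x hx R η hη hηd
    have key : ∀ p q, p ≤ q → p + K ≤ R →
        q + K ≤ R → ∀ b b' : Bool, (∀ k < K, d (x + p + k) = (b ^^ u k)) →
        (∀ k < K, d (x + q + k) = (b' ^^ u k)) → d (2 * (x + p)) = d (2 * (x + q)) := by
      intro p q hpq hp hq b b' hb hb'
      have h1 := claim hN hu (shift_mem hN hη p) (z := x + p) (j := q - p) (by omega)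
        (b := b) (b' := b') (fun k hk => by
          rw [hηd (p + k) (by omega), ← hb k hk]; congr 1; omega)
        (fun k hk => by
          rw [hηd (p + (q - p + k)) (by omega), ← hb' k hk]; congr 1; omega)
        hb (fun k hk => by
          rw [← hb' k hk]; congr 1; omega)
      rw [h1]
      congr 2
      omega
    intro p q hp hq b b' hb hb'
    rcases le_total p q with h | h
    · exact key p q h hp hq b b' hb hb'
    · exact (key q p h hq hp b' b hb' hb).symm
  have hdis : ∀ x, K ≤ x → ∀ t, A t x → ¬ A (!t) x := by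
    rintro x hx t ⟨⟨η, hη, hηd⟩, p, hp, b, hb, hpt⟩ ⟨-, q, hq, b', hb', hqt⟩
    have h1 := hclaim x hx (m + K) η hη hηd p q (by omega) (by omega) b b'
      (fun k hk => by rw [← hb k hk]; congr 1; omega)
      (fun k hk => by rw [← hb' k hk]; congr 1; omega)
    have h2 : d (2 * (x + p)) = t := hpt
    have h3 : d (2 * (x + q)) = !t := hqt
    rw [h2, h3] at h1
    revert h1
    cases t <;> simp
  have hH : ∀ r : Ultrafilter ℕ, (r : Filter ℕ) ≤ atTop → ∀ n t,
      (∀ᶠ z in (r : Filter ℕ), A t (2 * z + n)) ↔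
        ∀ᶠ z in (r : Filter ℕ), ∀ᶠ z' in (r : Filter ℕ), A (!t) (z + z' + n) := by
    intro r hr n t
    have hr2 : ((Ultrafilter.map (fun z => 2 * z) r : Ultrafilter ℕ) : Filter ℕ) ≤ atTop := by
      rw [Ultrafilter.coe_map]
      have h1 : Tendsto (fun z : ℕ => 2 * z) atTop atTop :=
        tendsto_atTop_mono (fun z => by simp only [id]; omega) tendsto_id
      exact (Filter.map_mono hr).trans h1
    -- the two limit patterns
    have e1 : ∀ k, ulim r (fun z => d (2 * z + n + k)) =
        !(ulim r (fun z => ulim r (fun z' => d (z + z' + n + k)))) := by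
      intro k
      have := hd r hr (n + k)
      simpa only [add_assoc] using this
    have e2 : ∀ p, ulim r (fun z => d (2 * (2 * z + n + p))) =
        !(ulim r (fun z => ulim r (fun z' => d (2 * (z + z' + n + p))))) := by
      intro p
      have h1 := hd (Ultrafilter.map (fun z => 2 * z) r) hr2 (2 * n + 2 * p)
      rw [ulim_map, ulim_map] at h1
      have h2 : (fun z => d (2 * (2 * z + n + p))) = fun z => d (2 * (2 * z) + (2 * n + 2 * p)) := by
        funext z
        congr 1
        ring
      have h3 : (fun z => ulim r (fun z' => d (2 * (z + z' + n + p)))) =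
          fun z => ulim (Ultrafilter.map (fun z => 2 * z) r)
            (fun z' => d (2 * z + z' + (2 * n + 2 * p))) := by
        funext z
        rw [ulim_map]
        congr 1
        funext z'
        congr 1
        ring
      rw [h2, h3]
      exact h1
    have l1 : (∀ᶠ z in (r : Filter ℕ), A t (2 * z + n)) ↔
        Phi N u K m t (fun k => ulim r (fun z => d (2 * z + n + k)))
          (fun p => ulim r (fun z => d (2 * (2 * z + n + p)))) :=
      eventually_phi r (fun z k => d (2 * z + n + k)) (fun z p => d (2 * (2 * z + n + p)))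
    have l2 : (∀ᶠ z in (r : Filter ℕ), ∀ᶠ z' in (r : Filter ℕ), A (!t) (z + z' + n)) ↔
        Phi N u K m (!t) (fun k => ulim r (fun z => ulim r (fun z' => d (z + z' + n + k))))
          (fun p => ulim r (fun z => ulim r (fun z' => d (2 * (z + z' + n + p))))) := by
      rw [← eventually_phi r (fun z k => ulim r (fun z' => d (z + z' + n + k)))
        (fun z p => ulim r (fun z' => d (2 * (z + z' + n + p))))]
      apply eventually_congr
      refine Eventually.of_forall (fun z => ?_)
      exact eventually_phi r (fun z' k => d (z + z' + n + k)) (fun z' p => d (2 * (z + z' + n + p)))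
    rw [l1, l2]
    simp only [e1, e2]
    constructor
    · intro h
      have := phi_not N u K m hN h
      simpa only [Bool.not_not] using this
    · intro h
      have := phi_not N u K m hN h
      simpa only [Bool.not_not] using this
  -- long runs
  have hruns : ∀ R, ∃ x, R ≤ x ∧ ∃ t, ∀ k < R, A t (x + k) := by
    intro R
    obtain ⟨ξ, hξ⟩ := hN.2.1
    obtain ⟨x, hx, b, hb⟩ := hNY hξ (R + m + K)
    have hη : (fun k => (b ^^ ξ k)) ∈ N := xor_mem hN hξ b
    obtain ⟨p0, hp0, b0, hb0⟩ := hm _ hη
    refine ⟨x, by omega, d (2 * (x + p0)), fun k hk => ?_⟩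
    have hs := shift_mem hN hη k
    obtain ⟨p, hp, b1, hb1⟩ := hm _ hs
    refine ⟨⟨_, hs, fun i hi => ?_⟩, p, hp, b1, fun i hi => ?_, ?_⟩
    · simp only
      rw [← hb (k + i) (by omega)]
      congr 1
      omega
    · simp only
      rw [← hb1 i hi, ← hb (k + (p + i)) (by omega)]
      congr 1
      omega
    · have := hclaim x (by omega) (R + m + K) _ hη (fun i hi => (hb i hi).symm) p0 (k + p)
        (by omega) (by omega) b0 b1 (fun i hi => by
          rw [← hb0 i hi, ← hb (p0 + i) (by omega)]; congr 1; omega)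
        (fun i hi => by
          rw [← hb1 i hi, ← hb (k + (p + i)) (by omega)]; congr 1; omega)
      simp only
      rw [this]
      congr 2
      omega
  have hruns' : ∃ t, ∀ R, ∃ x, R ≤ x ∧ ∀ k < R, A t (x + k) := by
    by_contra hcon
    push Not at hcon
    obtain ⟨R1, h1⟩ := hcon true
    obtain ⟨R2, h2⟩ := hcon false
    obtain ⟨x, hx, t, ht⟩ := hruns (R1 + R2)
    cases t
    · obtain ⟨k, hk, hk2⟩ := h2 x (by omega)
      exact hk2 (ht k (by omega))
    · obtain ⟨k, hk, hk2⟩ := h1 x (by omega)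
      exact hk2 (ht k (by omega))
  obtain ⟨t, ht⟩ := hruns'
  exact main_lemma A K hdis hH t ht

/-- **Owings' problem.** For every 2-colouring of the natural numbers there is an infinite set `X`
such that `X + X` (repetitions allowed) is monochromatic. -/
theorem owings (c : ℕ → Bool) :
    ∃ X : Set ℕ, X.Infinite ∧ ∃ b, ∀ x ∈ X, ∀ y ∈ X, c (x + y) = b := by
  by_contra hcon
  push Not at hcon
  refine no_flip (fun n => c (2 * n)) ?_
  intro r hr n
  refine flip (fun X hX hm => ?_) hr n
  obtain ⟨b, hb⟩ := hm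
  obtain ⟨x, hx, y, hy, hne⟩ := hcon X hX b
  exact hne (hb x hx y hy)

end Pool.Agent.TH459.Owings
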