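import Pool.Agent.TH459.ER6

set_option autoImplicit false

/-!
# Translation to subsets of Euclidean space
-/

namespace Pool.Agent.TH459.ER

theorem sd_dist {κ : Type} [Fintype κ] (x y : EuclideanSpace ℝ κ) :
    sd x.ofLp y.ofLp = dist x y ^ 2 := by
  rw [sd_eq, dist_eq_norm]

/-- The Ramsey property of a set of points gives the Ramsey property of its configuration. -/
theorem ram_of_set {d : ℕ} {X : Set (EuclideanSpace ℝ (Fin d))}
    (h : ∀ r : ℕ, ∃ N : ℕ, ∀ c : EuclideanSpace ℝ (Fin N) → Fin r,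
        ∃ g : X → EuclideanSpace ℝ (Fin N), Isometry g ∧ ∀ x y : X, c (g x) = c (g y)) :
    Ram (fun i j : X => sd (i : EuclideanSpace ℝ (Fin d)).ofLp
      (j : EuclideanSpace ℝ (Fin d)).ofLp) := by
  classical
  intro C hC
  have := Fintype.ofFinite C
  obtain ⟨N, hN⟩ := h (Fintype.card C)
  refine ⟨Fin N, inferInstance, fun c => ?_⟩
  obtain ⟨g, g1, g2⟩ := hN (fun v => Fintype.equivFin C (c v.ofLp))
  refine ⟨fun i => (g i).ofLp, fun i j => ?_, fun i j => (Fintype.equivFin C).injective (g2 i j)⟩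
  rw [sd_dist, g1.dist_eq]
  exact (sd_dist _ _).symm

/-- From the Ramsey property of a configuration to the existence of monochromatic isometric
copies. -/
theorem set_of_ram {ι : Type} {D : ι → ι → ℝ} (h : Ram D) {Y : Type} [PseudoMetricSpace Y]
    (o : Y → ι) (ho : ∀ y y', dist y y' ^ 2 = D (o y) (o y')) (r : ℕ) :
    ∃ N : ℕ, ∀ c : EuclideanSpace ℝ (Fin N) → Fin r,
        ∃ g : Y → EuclideanSpace ℝ (Fin N), Isometry g ∧ ∀ x y, c (g x) = c (g y) := by
  classical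
  obtain ⟨κ, iκ, hκ⟩ := h (Fin r) inferInstance
  refine ⟨Fintype.card κ, fun c => ?_⟩
  let e := Fintype.equivFin κ
  obtain ⟨g, g1, g2⟩ := hκ (fun y => c (WithLp.toLp 2 (fun i => y (e.symm i))))
  refine ⟨fun y => WithLp.toLp 2 (fun i => g (o y) (e.symm i)), ?_, fun x y => g2 _ _⟩
  refine Isometry.of_dist_eq fun y y' => ?_
  have h1 : dist (WithLp.toLp 2 (fun i => g (o y) (e.symm i)) : EuclideanSpace ℝ (Fin _))
      (WithLp.toLp 2 (fun i => g (o y') (e.symm i))) ^ 2 = dist y y' ^ 2 := by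
    rw [← sd_dist, ho, ← g1]
    unfold sd
    exact Equiv.sum_comp e.symm (fun i => (g (o y) i - g (o y') i) ^ 2)
  exact (sq_eq_sq₀ dist_nonneg dist_nonneg).1 h1

/-- A Ramsey set together with a point off its hyperplane is Ramsey. -/
theorem leader_russell_walters (d : ℕ) (X : Set (EuclideanSpace ℝ (Fin d)))
    (z : EuclideanSpace ℝ (Fin (d + 1))) (hfin : X.Finite)
    (hX : ∀ r : ℕ, ∃ N : ℕ, ∀ c : EuclideanSpace ℝ (Fin N) → Fin r,
        ∃ g : X → EuclideanSpace ℝ (Fin N), Isometry g ∧ ∀ x y : X, c (g x) = c (g y))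
    (hz : z (Fin.last d) ≠ 0) (r : ℕ) :
    ∃ N : ℕ, ∀ c : EuclideanSpace ℝ (Fin N) → Fin r,
        ∃ g : ({y : EuclideanSpace ℝ (Fin (d + 1)) |
                  y (Fin.last d) = 0 ∧ ∃ x ∈ X, ∀ i : Fin d, y (Fin.castSucc i) = x i}
                ∪ {z} : Set (EuclideanSpace ℝ (Fin (d + 1)))) → EuclideanSpace ℝ (Fin N),
          Isometry g ∧ ∀ x y, c (g x) = c (g y) := by
  classical
  have := hfin.to_subtype
  have hη : 0 < z (Fin.last d) ^ 2 := by positivity
  have hR := Ram.cone (ι := X) (fun i => (i : EuclideanSpace ℝ (Fin d)).ofLp) (ram_of_set hX)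
    (fun i => z (Fin.castSucc i)) hη
  have hch : ∀ y : ({y : EuclideanSpace ℝ (Fin (d + 1)) |
                  y (Fin.last d) = 0 ∧ ∃ x ∈ X, ∀ i : Fin d, y (Fin.castSucc i) = x i}
                ∪ {z} : Set (EuclideanSpace ℝ (Fin (d + 1)))),
      ∃ o : Option X, (∀ i : X, o = some i → (y : EuclideanSpace ℝ (Fin (d + 1))) (Fin.last d) = 0 ∧
        ∀ j : Fin d, (y : EuclideanSpace ℝ (Fin (d + 1))) (Fin.castSucc j) =
          (i : EuclideanSpace ℝ (Fin d)) j) ∧ (o = none → (y : EuclideanSpace ℝ (Fin (d + 1))) = z) := by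
    rintro ⟨y, hy | hy⟩
    · obtain ⟨h0, x, hx, hxy⟩ := hy
      refine ⟨some ⟨x, hx⟩, ?_, fun h => by simp at h⟩
      rintro i hi
      rw [← Option.some_injective _ hi]
      exact ⟨h0, hxy⟩
    · exact ⟨none, fun i hi => by simp at hi, fun _ => hy⟩
  choose o ho1 ho2 using hch
  refine set_of_ram hR o (fun y y' => ?_) r
  have hdist : dist y y' ^ 2 = ∑ i : Fin d,
      ((y : EuclideanSpace ℝ (Fin (d + 1))) (Fin.castSucc i)
        - (y' : EuclideanSpace ℝ (Fin (d + 1))) (Fin.castSucc i)) ^ 2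
      + ((y : EuclideanSpace ℝ (Fin (d + 1))) (Fin.last d)
        - (y' : EuclideanSpace ℝ (Fin (d + 1))) (Fin.last d)) ^ 2 := by
    rw [Subtype.dist_eq, ← sd_dist]
    unfold sd
    rw [Fin.sum_univ_castSucc]
  rw [hdist]
  rcases hoy : o y with _ | i <;> rcases hoy' : o y' with _ | j
  · rw [ho2 y hoy, ho2 y' hoy']
    simp [coneD]
  · obtain ⟨a1, a2⟩ := ho1 y' j hoy'
    rw [a1, ho2 y hoy, sub_zero]
    simp only [a2]
    change _ = sd _ _ + _
    rw [sd_comm]
    rfl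
  · obtain ⟨a1, a2⟩ := ho1 y i hoy
    rw [a1, ho2 y' hoy', zero_sub, neg_sq]
    simp only [a2]
    rfl
  · obtain ⟨a1, a2⟩ := ho1 y i hoy
    obtain ⟨b1, b2⟩ := ho1 y' j hoy'
    rw [a1, b1]
    simp only [a2, b2]
    simp [coneD, sd]

end Pool.Agent.TH459.ER
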