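import Mathlib

set_option autoImplicit false

/-!
# Ramsey configurations: compactness, products
-/

namespace Pool.Agent.TH459.ER

/-- Compactness: if every colouring with finitely many colours is good for some index and goodness
depends on finitely many values only, then finitely many indices suffice. -/
theorem compactness {Ω C J : Type*} [Finite C] (Good : J → (Ω → C) → Prop) (S : J → Finset Ω)
    (hS : ∀ j c c', (∀ x ∈ S j, c x = c' x) → Good j c → Good j c')
    (h : ∀ c, ∃ j, Good j c) : ∃ F : Finset J, ∀ c, ∃ j ∈ F, Good j c := by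
  classical
  let _ : TopologicalSpace C := ⊥
  have : DiscreteTopology C := ⟨rfl⟩
  have : CompactSpace C := Finite.compactSpace
  have hopen : ∀ j, IsOpen {c : Ω → C | Good j c} := by
    intro j
    rw [isOpen_iff_forall_mem_open]
    intro c hc
    refine ⟨⋂ x ∈ S j, {c' : Ω → C | c' x = c x}, ?_, ?_, ?_⟩
    · intro c' hc'
      simp only [Set.mem_iInter, Set.mem_ofPred_eq] at hc'
      exact hS j c c' (fun x hx => (hc' x hx).symm) hc
    · refine isOpen_biInter_finset fun x _ => ?_
      have : IsOpen ((fun c' : Ω → C => c' x) ⁻¹' {c x}) :=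
        (isOpen_discrete ({c x} : Set C)).preimage (continuous_apply x)
      exact this
    · simp
  obtain ⟨F, hF⟩ := isCompact_univ.elim_finite_subcover (fun j => {c : Ω → C | Good j c}) hopen
    (by
      intro c _
      obtain ⟨j, hj⟩ := h c
      exact Set.mem_iUnion.2 ⟨j, hj⟩)
  refine ⟨F, fun c => ?_⟩
  have := hF (Set.mem_univ c)
  simp only [Set.mem_iUnion, Set.mem_ofPred_eq] at this
  obtain ⟨j, hj, hg⟩ := this
  exact ⟨j, hj, hg⟩

/-- Squared distance. -/
def sd {κ : Type} [Fintype κ] (x y : κ → ℝ) : ℝ := ∑ i, (x i - y i) ^ 2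

theorem sd_self {κ : Type} [Fintype κ] (x : κ → ℝ) : sd x x = 0 := by simp [sd]

theorem sd_comm {κ : Type} [Fintype κ] (x y : κ → ℝ) : sd x y = sd y x := by
  unfold sd
  exact Finset.sum_congr rfl fun i _ => by ring

theorem sd_nonneg {κ : Type} [Fintype κ] (x y : κ → ℝ) : 0 ≤ sd x y :=
  Finset.sum_nonneg fun i _ => sq_nonneg _

theorem sd_elim {κ κ' : Type} [Fintype κ] [Fintype κ'] (x y : κ → ℝ) (x' y' : κ' → ℝ) :
    sd (Sum.elim x x') (Sum.elim y y') = sd x y + sd x' y' := by
  simp [sd, Fintype.sum_sum_type]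

theorem sd_extend {κ κ' : Type} [Fintype κ] [Fintype κ'] {h : κ → κ'} (hh : Function.Injective h)
    (x y : κ → ℝ) : sd (Function.extend h x 0) (Function.extend h y 0) = sd x y := by
  classical
  unfold sd
  symm
  refine Finset.sum_of_injOn h (hh.injOn) (fun _ _ => Finset.mem_coe.2 (Finset.mem_univ _)) ?_ ?_
  · intro i _ hi
    have : ¬ ∃ a, h a = i := fun ⟨a, ha⟩ => hi ⟨a, Finset.mem_coe.2 (Finset.mem_univ _), ha⟩
    rw [Function.extend_apply' _ _ _ this, Function.extend_apply' _ _ _ this]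
    simp
  · intro i _
    rw [hh.extend_apply, hh.extend_apply]

/-- `D` is realised monochromatically, for the colour set `C`. -/
def RamC {ι : Type} (D : ι → ι → ℝ) (C : Type) : Prop :=
  ∃ (κ : Type) (_ : Fintype κ), ∀ c : (κ → ℝ) → C,
    ∃ g : ι → κ → ℝ, (∀ i j, sd (g i) (g j) = D i j) ∧ ∀ i j, c (g i) = c (g j)

/-- `D` is the squared distance function of a Ramsey configuration. -/
def Ram {ι : Type} (D : ι → ι → ℝ) : Prop := ∀ C : Type, Finite C → RamC D C

theorem Ram.comap {ι ι' : Type} {D : ι → ι → ℝ} (h : Ram D) (f : ι' → ι) :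
    Ram (fun a b => D (f a) (f b)) := by
  intro C hC
  obtain ⟨κ, iκ, h⟩ := h C hC
  refine ⟨κ, iκ, fun c => ?_⟩
  obtain ⟨g, h1, h2⟩ := h c
  exact ⟨fun a => g (f a), fun i j => h1 _ _, fun i j => h2 _ _⟩

/-- A finite family of copies suffices. -/
theorem RamC.finite {ι : Type} [Finite ι] {D : ι → ι → ℝ} {C : Type} [Finite C] {κ : Type}
    [Fintype κ] (h : ∀ c : (κ → ℝ) → C,
      ∃ g : ι → κ → ℝ, (∀ i j, sd (g i) (g j) = D i j) ∧ ∀ i j, c (g i) = c (g j)) :
    ∃ S : Finset (κ → ℝ), ∀ c : (κ → ℝ) → C,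
      ∃ g : ι → κ → ℝ, (∀ i, g i ∈ S) ∧ (∀ i j, sd (g i) (g j) = D i j) ∧
        ∀ i j, c (g i) = c (g j) := by
  classical
  have := Fintype.ofFinite ι
  obtain ⟨F, hF⟩ := compactness (Ω := κ → ℝ) (C := C) (J := ι → κ → ℝ)
    (fun g c => (∀ i j, sd (g i) (g j) = D i j) ∧ ∀ i j, c (g i) = c (g j))
    (fun g => Finset.univ.image g)
    (by
      rintro g c c' hc ⟨h1, h2⟩
      refine ⟨h1, fun i j => ?_⟩
      rw [← hc (g i) (Finset.mem_image_of_mem _ (Finset.mem_univ _)),
        ← hc (g j) (Finset.mem_image_of_mem _ (Finset.mem_univ _))]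
      exact h2 i j) h
  refine ⟨F.biUnion fun g => Finset.univ.image g, fun c => ?_⟩
  obtain ⟨g, hg, h1, h2⟩ := hF c
  exact ⟨g, fun i => Finset.mem_biUnion.2 ⟨g, hg, Finset.mem_image_of_mem _ (Finset.mem_univ _)⟩,
    h1, h2⟩

/-- Products of Ramsey configurations. -/
theorem Ram.prod {ι ι' : Type} [Finite ι] {D : ι → ι → ℝ} {D' : ι' → ι' → ℝ}
    (h : Ram D) (h' : Ram D') :
    Ram (fun a b : ι × ι' => D a.1 b.1 + D' a.2 b.2) := by
  classical
  intro C hC
  obtain ⟨κ, iκ, hκ⟩ := h C hC
  obtain ⟨S, hS⟩ := RamC.finite hκ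
  obtain ⟨κ', iκ', hκ'⟩ := h' (S → C) inferInstance
  refine ⟨κ ⊕ κ', inferInstance, fun c => ?_⟩
  obtain ⟨g', h1', h2'⟩ := hκ' (fun y x => c (Sum.elim x.1 y))
  by_cases hι' : Nonempty ι'
  · obtain ⟨j0⟩ := hι'
    obtain ⟨g, hgS, h1, h2⟩ := hS (fun x => c (Sum.elim x (g' j0)))
    refine ⟨fun a => Sum.elim (g a.1) (g' a.2), fun a b => ?_, fun a b => ?_⟩
    · rw [sd_elim, h1, h1']
    · have key : ∀ a : ι × ι', c (Sum.elim (g a.1) (g' a.2)) = c (Sum.elim (g a.1) (g' j0)) := by
        intro a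
        exact congrFun (h2' a.2 j0) ⟨g a.1, hgS a.1⟩
      rw [key a, key b]
      exact h2 _ _
  · exact ⟨fun a => (hι' ⟨a.2⟩).elim, fun a => (hι' ⟨a.2⟩).elim, fun a => (hι' ⟨a.2⟩).elim⟩

theorem Ram.add {ι : Type} [Finite ι] {D D' : ι → ι → ℝ} (h : Ram D) (h' : Ram D') :
    Ram (fun a b => D a b + D' a b) :=
  (h.prod h').comap (fun a => (a, a))

theorem Ram.zero {ι : Type} : Ram (fun _ _ : ι => (0 : ℝ)) := by
  intro C hC
  exact ⟨Empty, inferInstance, fun c => ⟨fun _ => Empty.elim, fun i j => by simp [sd],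
    fun i j => rfl⟩⟩

theorem Ram.sum {ι σ : Type} [Finite ι] (s : Finset σ) (D : σ → ι → ι → ℝ)
    (h : ∀ t ∈ s, Ram (D t)) : Ram (fun a b => ∑ t ∈ s, D t a b) := by
  classical
  induction s using Finset.induction_on with
  | empty => simpa using Ram.zero
  | insert t s ht ih =>
    have h1 := h t (Finset.mem_insert_self _ _)
    have h2 := ih fun t ht => h t (Finset.mem_insert_of_mem ht)
    have := h1.add h2
    simpa [Finset.sum_insert ht] using this

/-- Two points at an arbitrary distance. -/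
theorem Ram.two (t : ℝ) (ht : 0 ≤ t) : Ram (fun a b : Bool => if a = b then 0 else t) := by
  classical
  intro C hC
  have := Fintype.ofFinite C
  refine ⟨Fin (Fintype.card C + 1), inferInstance, fun c => ?_⟩
  obtain ⟨i, j, hij, hc⟩ := Fintype.exists_ne_map_eq_of_card_lt
    (fun i : Fin (Fintype.card C + 1) =>
      c (fun x => if x = i then Real.sqrt (t / 2) else 0)) (by simp)
  have hs : Real.sqrt (t / 2) ^ 2 = t / 2 := Real.sq_sqrt (by linarith)
  have hd : sd (fun x => if x = i then Real.sqrt (t / 2) else 0)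
      (fun x => if x = j then Real.sqrt (t / 2) else 0) = t := by
    unfold sd
    have : ∀ x : Fin (Fintype.card C + 1),
        ((if x = i then Real.sqrt (t / 2) else 0) - (if x = j then Real.sqrt (t / 2) else 0)) ^ 2
        = (if x = i then t / 2 else 0) + (if x = j then t / 2 else 0) := by
      intro x
      by_cases h1 : x = i
      · have h2 : x ≠ j := fun h => hij (h1.symm.trans h)
        rw [if_pos h1, if_neg h2, if_pos h1, if_neg h2, sub_zero, hs, add_zero]
      · by_cases h2 : x = j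
        · rw [if_neg h1, if_pos h2, if_neg h1, if_pos h2, zero_sub, neg_sq, hs, zero_add]
        · rw [if_neg h1, if_neg h2, if_neg h1, if_neg h2]; norm_num
    rw [Finset.sum_congr rfl fun x _ => this x, Finset.sum_add_distrib]
    simp
  refine ⟨fun a x => if x = (if a then i else j) then Real.sqrt (t / 2) else 0, ?_, ?_⟩
  · intro a b
    cases a <;> cases b
    · simp [sd]
    · simp only [Bool.false_eq_true, if_false, if_true]
      rw [sd_comm]; exact hd
    · simp only [Bool.false_eq_true, if_false, if_true, Bool.true_eq_false]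
      exact hd
    · simp [sd]
  · intro a b
    cases a <;> cases b
    · rfl
    · simpa using hc.symm
    · simpa using hc
    · rfl

end Pool.Agent.TH459.ER
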