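import Pool.Agent.TH459.ER1

set_option autoImplicit false

/-!
# Extension of isometries
-/

namespace Pool.Agent.TH459.ER

open scoped InnerProductSpace

theorem lin_ext {V : Type*} [NormedAddCommGroup V] [InnerProductSpace ℝ V]
    [FiniteDimensional ℝ V] {ι : Type*} [Fintype ι] (u w : ι → V)
    (h : ∀ i j, ⟪u i, u j⟫_ℝ = ⟪w i, w j⟫_ℝ) :
    ∃ L : V →ₗᵢ[ℝ] V, ∀ i, L (u i) = w i := by
  classical
  let Tu : (ι → ℝ) →ₗ[ℝ] V := Fintype.linearCombination ℝ u
  let Tw : (ι → ℝ) →ₗ[ℝ] V := Fintype.linearCombination ℝ w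
  have hnorm : ∀ c, ‖Tu c‖ = ‖Tw c‖ := by
    intro c
    have h1 : ⟪Tu c, Tu c⟫_ℝ = ⟪Tw c, Tw c⟫_ℝ := by
      simp only [Tu, Tw, Fintype.linearCombination_apply, sum_inner, inner_sum, inner_smul_left,
        inner_smul_right, h]
    rw [real_inner_self_eq_norm_sq, real_inner_self_eq_norm_sq] at h1
    exact (sq_eq_sq₀ (norm_nonneg _) (norm_nonneg _)).1 h1
  obtain ⟨r, hr⟩ := Tu.rangeRestrict.exists_rightInverse_of_surjective
    (LinearMap.range_eq_top.2 Tu.surjective_rangeRestrict)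
  have hr' : ∀ v : LinearMap.range Tu, Tu (r v) = v := by
    intro v
    have := LinearMap.congr_fun hr v
    have h2 := congrArg Subtype.val this
    simpa using h2
  let L0 : LinearMap.range Tu →ₗᵢ[ℝ] V :=
    { toLinearMap := Tw.comp r
      norm_map' := by
        intro v
        change ‖Tw (r v)‖ = ‖v‖
        rw [← hnorm, hr']
        rfl }
  refine ⟨L0.extend, fun i => ?_⟩
  have hui : Tu (Pi.single i 1) = u i := by
    simp only [Tu]
    rw [Fintype.linearCombination_apply_single, one_smul]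
  have hwi : Tw (Pi.single i 1) = w i := by
    simp only [Tw]
    rw [Fintype.linearCombination_apply_single, one_smul]
  have hmem : u i ∈ LinearMap.range Tu := ⟨_, hui⟩
  have h1 : L0.extend (u i) = L0 ⟨u i, hmem⟩ := LinearIsometry.extend_apply L0 ⟨u i, hmem⟩
  rw [h1]
  change Tw (r ⟨u i, hmem⟩) = w i
  have h3 : Tw (r ⟨u i, hmem⟩ - Pi.single i 1) = 0 := by
    rw [← norm_eq_zero, ← hnorm, map_sub, hr', hui]
    simp
  rw [map_sub, hwi, sub_eq_zero] at h3
  exact h3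

theorem sd_eq {κ : Type} [Fintype κ] (x y : κ → ℝ) :
    sd x y = ‖(WithLp.toLp 2 x : EuclideanSpace ℝ κ) - WithLp.toLp 2 y‖ ^ 2 := by
  rw [EuclideanSpace.norm_sq_eq]
  unfold sd
  refine Finset.sum_congr rfl fun i _ => ?_
  rw [Real.norm_eq_abs, sq_abs]
  rfl

theorem sd_add_right {κ : Type} [Fintype κ] (x y z : κ → ℝ) : sd (x + z) (y + z) = sd x y := by
  unfold sd
  refine Finset.sum_congr rfl fun i _ => ?_
  simp

/-- A copy of a configuration of `α → ℝ` in `κ → ℝ` extends to an isometric map. -/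
theorem ext {ι κ α : Type} [Finite ι] [Fintype κ] [Fintype α] (p : ι → α → ℝ) (g : ι → κ → ℝ)
    (h : ∀ i j, sd (g i) (g j) = sd (p i) (p j)) :
    ∃ Ψ : (α → ℝ) → (κ ⊕ α → ℝ), (∀ u v, sd (Ψ u) (Ψ v) = sd u v) ∧
      ∀ i, Ψ (p i) = Sum.elim (g i) 0 := by
  classical
  have := Fintype.ofFinite ι
  rcases isEmpty_or_nonempty ι with hι | ⟨⟨i0⟩⟩
  · refine ⟨fun u => Sum.elim 0 u, fun u v => ?_, fun i => (hι.false i).elim⟩
    rw [sd_elim, sd_self, zero_add]
  · let E : (κ ⊕ α → ℝ) → EuclideanSpace ℝ (κ ⊕ α) := fun x => WithLp.toLp 2 x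
    let u : ι → EuclideanSpace ℝ (κ ⊕ α) := fun i => E (Sum.elim 0 (p i - p i0))
    let w : ι → EuclideanSpace ℝ (κ ⊕ α) := fun i => E (Sum.elim (g i - g i0) 0)
    have e1 : ∀ i j, ‖u i - u j‖ ^ 2 = sd (p i) (p j) := by
      intro i j
      have : ‖u i - u j‖ ^ 2 = sd (Sum.elim (0 : κ → ℝ) (p i - p i0)) (Sum.elim 0 (p j - p i0)) :=
        (sd_eq _ _).symm
      rw [this, sd_elim, sd_self, zero_add, sub_eq_add_neg, sub_eq_add_neg, sd_add_right]
    have e2 : ∀ i j, ‖w i - w j‖ ^ 2 = sd (g i) (g j) := by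
      intro i j
      have : ‖w i - w j‖ ^ 2 = sd (Sum.elim (g i - g i0) (0 : α → ℝ)) (Sum.elim (g j - g i0) 0) :=
        (sd_eq _ _).symm
      rw [this, sd_elim, sd_self, add_zero, sub_eq_add_neg, sub_eq_add_neg, sd_add_right]
    have e3 : u i0 = 0 := by
      simp only [u, E, sub_self]
      have : (Sum.elim (0 : κ → ℝ) (0 : α → ℝ)) = 0 := by
        funext x; cases x <;> rfl
      rw [this]; rfl
    have e4 : w i0 = 0 := by
      simp only [w, E, sub_self]
      have : (Sum.elim (0 : κ → ℝ) (0 : α → ℝ)) = 0 := by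
        funext x; cases x <;> rfl
      rw [this]; rfl
    have hin : ∀ i j, ⟪u i, u j⟫_ℝ = ⟪w i, w j⟫_ℝ := by
      intro i j
      have h1 := norm_sub_sq_real (u i) (u j)
      have h2 := norm_sub_sq_real (w i) (w j)
      have h3 : ‖u i‖ ^ 2 = ‖w i‖ ^ 2 := by
        have a := e1 i i0
        have b := e2 i i0
        rw [e3, sub_zero] at a
        rw [e4, sub_zero] at b
        rw [a, b, h]
      have h4 : ‖u j‖ ^ 2 = ‖w j‖ ^ 2 := by
        have a := e1 j i0
        have b := e2 j i0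
        rw [e3, sub_zero] at a
        rw [e4, sub_zero] at b
        rw [a, b, h]
      have h5 : ‖u i - u j‖ ^ 2 = ‖w i - w j‖ ^ 2 := by rw [e1, e2, h]
      linarith
    obtain ⟨L, hL⟩ := lin_ext u w hin
    refine ⟨fun x => (L (E (Sum.elim 0 (x - p i0)))).ofLp + Sum.elim (g i0) 0, fun x y => ?_,
      fun i => ?_⟩
    · rw [sd_add_right, sd_eq]
      change ‖L (E (Sum.elim 0 (x - p i0))) - L (E (Sum.elim 0 (y - p i0)))‖ ^ 2 = _
      rw [← map_sub, L.norm_map]
      have : ‖E (Sum.elim 0 (x - p i0)) - E (Sum.elim 0 (y - p i0))‖ ^ 2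
          = sd (Sum.elim (0 : κ → ℝ) (x - p i0)) (Sum.elim 0 (y - p i0)) := (sd_eq _ _).symm
      rw [this, sd_elim, sd_self, zero_add, sub_eq_add_neg, sub_eq_add_neg, sd_add_right]
    · have h1 := hL i
      change L (E (Sum.elim 0 (p i - p i0))) = E (Sum.elim (g i - g i0) 0) at h1
      change (L (E (Sum.elim 0 (p i - p i0)))).ofLp + Sum.elim (g i0) 0 = _
      rw [h1]
      change Sum.elim (g i - g i0) 0 + Sum.elim (g i0) 0 = _
      funext x
      cases x <;> simp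

end Pool.Agent.TH459.ER
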