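import Pool.Agent.TH459.ER3

set_option autoImplicit false

/-!
# Finite sets of reals are approximated by Ramsey configurations
-/

namespace Pool.Agent.TH459.ER

/-- The triangle function. -/
noncomputable def tri (L x : ℝ) : ℝ := max 0 (min x (2 * L - x))

theorem tri_lip (L x y : ℝ) : |tri L x - tri L y| ≤ |x - y| := by
  unfold tri
  have h1 := abs_max_sub_max_le_abs (min x (2 * L - x)) (min y (2 * L - y)) 0
  rw [max_comm 0, max_comm 0]
  refine h1.trans ?_
  refine (abs_min_sub_min_le_max _ _ _ _).trans ?_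
  refine max_le le_rfl ?_
  have : 2 * L - x - (2 * L - y) = y - x := by ring
  rw [this, abs_sub_comm]

theorem tri_up {L x : ℝ} (h0 : 0 ≤ x) (h1 : x ≤ L) : tri L x = x := by
  unfold tri
  rw [min_eq_left (by linarith), max_eq_right h0]

theorem tri_down {L x : ℝ} (h0 : L ≤ x) (h1 : x ≤ 2 * L) : tri L x = 2 * L - x := by
  unfold tri
  rw [min_eq_right (by linarith), max_eq_right (by linarith)]

theorem tri_left {L x : ℝ} (h0 : x ≤ 0) : tri L x = 0 := by
  unfold tri
  exact max_eq_left ((min_le_left _ _).trans h0)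

theorem tri_right {L x : ℝ} (h0 : 2 * L ≤ x) : tri L x = 0 := by
  unfold tri
  exact max_eq_left ((min_le_right _ _).trans (by linarith))

/-- The slope vector. -/
noncomputable def slope (L : ℕ) (j : ℕ) : ℝ := if j < L then -1 else if j < 2 * L then 1 else 0

theorem slope_sq (L j : ℕ) : slope L j ^ 2 = if j < 2 * L then 1 else 0 := by
  unfold slope
  by_cases h : j < L
  · rw [if_pos h, if_pos (by omega)]; norm_num
  · rw [if_neg h]
    by_cases h2 : j < 2 * L
    · rw [if_pos h2]; norm_num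
    · rw [if_neg h2]; norm_num

theorem slope_abs (L j : ℕ) : |slope L j| ≤ 1 := by
  unfold slope
  by_cases h : j < L
  · rw [if_pos h]; norm_num
  · rw [if_neg h]
    by_cases h2 : j < 2 * L
    · rw [if_pos h2]; norm_num
    · rw [if_neg h2]; norm_num

theorem sum_slope (L n : ℕ) (hn : 2 * L ≤ n) : ∑ j : Fin n, slope L j ^ 2 = 2 * L := by
  rw [Fin.sum_univ_eq_sum_range (fun j => slope L j ^ 2) n]
  rw [Finset.sum_congr rfl fun j _ => slope_sq L j, Finset.sum_boole]
  have : (Finset.range n).filter (fun j => j < 2 * L) = Finset.range (2 * L) := by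
    ext j
    simp only [Finset.mem_filter, Finset.mem_range]
    omega
  rw [this, Finset.card_range]
  push_cast
  ring

theorem cnt (n a S : ℕ) :
    ∑ j : Fin n, (if a ≤ (j : ℕ) ∧ (j : ℕ) < a + S then (1 : ℝ) else 0) ≤ S := by
  rw [Fin.sum_univ_eq_sum_range (fun j => if a ≤ j ∧ j < a + S then (1 : ℝ) else 0) n,
    Finset.sum_boole]
  have h : ((Finset.range n).filter (fun j => a ≤ j ∧ j < a + S)).card ≤ S := by
    calc _ ≤ (Finset.Ico a (a + S)).card := Finset.card_le_card (by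
          intro j hj
          simp only [Finset.mem_filter] at hj
          exact Finset.mem_Ico.2 hj.2)
      _ = S := by simp
  exact_mod_cast h

theorem err_le {L S s j : ℕ} (hs : s ≤ S) (hL : S ≤ L) :
    (tri L ((j : ℝ) - s) - tri L j - s * slope L j) ^ 2 ≤
      4 * (S : ℝ) ^ 2 * ((if 0 ≤ j ∧ j < 0 + S then (1 : ℝ) else 0) +
        (if L ≤ j ∧ j < L + S then (1 : ℝ) else 0) +
        (if 2 * L ≤ j ∧ j < 2 * L + S then (1 : ℝ) else 0)) := by
  have hsR : (s : ℝ) ≤ S := by exact_mod_cast hs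
  have hs0 : (0 : ℝ) ≤ s := Nat.cast_nonneg _
  have hLR : (S : ℝ) ≤ L := by exact_mod_cast hL
  have hgen : (tri L ((j : ℝ) - s) - tri L j - s * slope L j) ^ 2 ≤ 4 * (S : ℝ) ^ 2 := by
    have h1 := tri_lip L ((j : ℝ) - s) j
    have h2 : |(j : ℝ) - s - j| = s := by
      rw [show (j : ℝ) - s - j = -s by ring, abs_neg, abs_of_nonneg hs0]
    rw [h2] at h1
    have h3 : |s * slope L j| ≤ (s : ℝ) := by
      rw [abs_mul, abs_of_nonneg hs0]
      exact mul_le_of_le_one_right hs0 (slope_abs L j)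
    have h4 : |tri L ((j : ℝ) - s) - tri L j - s * slope L j| ≤ 2 * S := by
      refine (abs_sub _ _).trans ?_
      linarith
    rw [← sq_abs]
    nlinarith [abs_nonneg (tri L ((j : ℝ) - s) - tri L j - s * slope L j)]
  have i0 : ∀ P : Prop, [Decidable P] → (0 : ℝ) ≤ if P then (1 : ℝ) else 0 := by
    intro P _
    split_ifs <;> norm_num
  by_cases hb1 : j < s
  · refine hgen.trans ?_
    rw [if_pos (⟨Nat.zero_le _, by omega⟩ : 0 ≤ j ∧ j < 0 + S)]
    have a1 := i0 (L ≤ j ∧ j < L + S)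
    have a2 := i0 (2 * L ≤ j ∧ j < 2 * L + S)
    nlinarith [sq_nonneg (S : ℝ)]
  by_cases hb2 : L ≤ j ∧ j < L + s
  · refine hgen.trans ?_
    rw [if_pos (⟨hb2.1, by omega⟩ : L ≤ j ∧ j < L + S)]
    have a1 := i0 (0 ≤ j ∧ j < 0 + S)
    have a2 := i0 (2 * L ≤ j ∧ j < 2 * L + S)
    nlinarith [sq_nonneg (S : ℝ)]
  by_cases hb3 : 2 * L ≤ j ∧ j < 2 * L + s
  · refine hgen.trans ?_
    rw [if_pos (⟨hb3.1, by omega⟩ : 2 * L ≤ j ∧ j < 2 * L + S)]
    have a1 := i0 (0 ≤ j ∧ j < 0 + S)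
    have a2 := i0 (L ≤ j ∧ j < L + S)
    nlinarith [sq_nonneg (S : ℝ)]
  have hz : tri L ((j : ℝ) - s) - tri L j - s * slope L j = 0 := by
    push Not at hb1 hb2 hb3
    have c1 : (s : ℝ) ≤ j := by exact_mod_cast hb1
    by_cases h1 : j < L
    · have c2 : (j : ℝ) ≤ L := by exact_mod_cast h1.le
      rw [tri_up (by linarith) (by linarith), tri_up (by linarith) (by linarith)]
      unfold slope
      rw [if_pos h1]
      ring
    · have c3 : L + s ≤ j := hb2 (by omega)
      have c3' : (L : ℝ) + s ≤ j := by exact_mod_cast c3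
      by_cases h2 : j < 2 * L
      · have c4 : (j : ℝ) ≤ 2 * L := by exact_mod_cast h2.le
        rw [tri_down (by linarith) (by linarith), tri_down (by linarith) (by linarith)]
        unfold slope
        rw [if_neg h1, if_pos h2]
        ring
      · have c5 : 2 * L + s ≤ j := hb3 (by omega)
        have c5' : 2 * (L : ℝ) + s ≤ j := by exact_mod_cast c5
        rw [tri_right (by linarith), tri_right (by linarith)]
        unfold slope
        rw [if_neg h1, if_neg h2]
        ring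
  rw [hz]
  have a1 := i0 (0 ≤ j ∧ j < 0 + S)
  have a2 := i0 (L ≤ j ∧ j < L + S)
  have a3 := i0 (2 * L ≤ j ∧ j < 2 * L + S)
  have : 0 ≤ 4 * (S : ℝ) ^ 2 * ((if 0 ≤ j ∧ j < 0 + S then (1 : ℝ) else 0) +
        (if L ≤ j ∧ j < L + S then (1 : ℝ) else 0) +
        (if 2 * L ≤ j ∧ j < 2 * L + S then (1 : ℝ) else 0)) := by positivity
  simpa using this

theorem sum_err {L S s n : ℕ} (hs : s ≤ S) (hL : S ≤ L) :
    ∑ j : Fin n, (tri L ((j : ℝ) - s) - tri L j - s * slope L j) ^ 2 ≤ 12 * (S : ℝ) ^ 3 := by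
  calc _ ≤ ∑ j : Fin n, 4 * (S : ℝ) ^ 2 * ((if 0 ≤ (j : ℕ) ∧ (j : ℕ) < 0 + S then (1 : ℝ) else 0) +
        (if L ≤ (j : ℕ) ∧ (j : ℕ) < L + S then (1 : ℝ) else 0) +
        (if 2 * L ≤ (j : ℕ) ∧ (j : ℕ) < 2 * L + S then (1 : ℝ) else 0)) :=
        Finset.sum_le_sum fun j _ => err_le hs hL
    _ ≤ 4 * (S : ℝ) ^ 2 * (S + S + S) := by
        rw [← Finset.mul_sum, Finset.sum_add_distrib, Finset.sum_add_distrib]
        have h1 := cnt n 0 S
        have h2 := cnt n L S
        have h3 := cnt n (2 * L) S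
        have h4 : (0 : ℝ) ≤ 4 * (S : ℝ) ^ 2 := by positivity
        exact mul_le_mul_of_nonneg_left (by linarith) h4
    _ = 12 * (S : ℝ) ^ 3 := by ring

theorem shv_tri {L S : ℕ} (σ : ℝ) (s : Fin (S + 1)) (j : Fin (2 * L + 1 + S)) :
    shv (fun i : Fin (2 * L + 1) => σ * tri L (i : ℕ)) s j = σ * tri L ((j : ℝ) - (s : ℕ)) := by
  unfold shv
  have hinj : Function.Injective
      (fun i : Fin (2 * L + 1) => (⟨i + s, by omega⟩ : Fin (2 * L + 1 + S))) := by
    intro i i' h
    have := congrArg Fin.val h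
    simp only at this
    exact Fin.ext (by omega)
  by_cases h : ∃ i : Fin (2 * L + 1), (⟨i + s, by omega⟩ : Fin (2 * L + 1 + S)) = j
  · obtain ⟨i, rfl⟩ := h
    rw [hinj.extend_apply]
    simp
  · rw [Function.extend_apply' _ _ _ h]
    change (0 : ℝ) = _
    have h' : (j : ℕ) < s ∨ 2 * L + s < j := by
      by_contra hcon
      push Not at hcon
      refine h ⟨⟨j - s, by omega⟩, Fin.ext ?_⟩
      simp only
      omega
    rcases h' with h' | h'
    · have : (j : ℝ) ≤ (s : ℕ) := by exact_mod_cast h'.le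
      rw [tri_left (by linarith), mul_zero]
    · have : 2 * (L : ℝ) + (s : ℕ) ≤ (j : ℕ) := by exact_mod_cast h'.le
      rw [tri_right (by linarith), mul_zero]

/-- A finite set of reals sits close to a Ramsey configuration. -/
theorem line_approx {Φ : Type} [Finite Φ] (t : Φ → ℝ) {δ : ℝ} (hδ : 0 < δ) :
    ∃ (κ : Type) (_ : Fintype κ) (a ι : Φ → κ → ℝ),
      (∀ φ φ', sd (ι φ) (ι φ') = (t φ - t φ') ^ 2) ∧ (∀ φ, sd (a φ) (ι φ) ≤ δ) ∧
      Ram (fun φ φ' => sd (a φ) (a φ')) := by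
  classical
  have := Fintype.ofFinite Φ
  set M : ℝ := ∑ φ, |t φ| with hM
  have hM0 : 0 ≤ M := Finset.sum_nonneg fun _ _ => abs_nonneg _
  have hMt : ∀ φ, |t φ| ≤ M := fun φ =>
    Finset.single_le_sum (f := fun φ => |t φ|) (fun _ _ => abs_nonneg _) (Finset.mem_univ φ)
  set ε : ℝ := Real.sqrt δ / 2 with hε
  have hε0 : 0 < ε := by positivity
  have hεsq : ε ^ 2 = δ / 4 := by
    rw [hε, div_pow, Real.sq_sqrt hδ.le]; norm_num
  set S : ℕ := ⌊2 * M / ε⌋₊ with hS
  set L : ℕ := 6 * S ^ 3 + S + 1 with hL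
  have hLS : S ≤ L := by omega
  have hL0 : (0 : ℝ) < L := by
    have : 0 < L := by omega
    exact_mod_cast this
  have hLbig : 6 * (S : ℝ) ^ 3 ≤ L := by
    have : 6 * S ^ 3 ≤ L := by omega
    exact_mod_cast this
  set σ : ℝ := ε / Real.sqrt (2 * L) with hσ
  have hσsq : σ ^ 2 = δ / (8 * L) := by
    rw [hσ, div_pow, Real.sq_sqrt (by positivity), hεsq]
    field_simp
    norm_num
  let τ : Φ → ℝ := fun φ => (t φ + M) / ε
  have hτ0 : ∀ φ, 0 ≤ τ φ := fun φ => by
    have := (abs_le.1 (hMt φ)).1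
    exact div_nonneg (by linarith) hε0.le
  have hsS : ∀ φ, ⌊τ φ⌋₊ ≤ S := fun φ => by
    have := (abs_le.1 (hMt φ)).2
    exact Nat.floor_le_floor (div_le_div_of_nonneg_right (by linarith) hε0.le)
  refine ⟨Fin (2 * L + 1 + S), inferInstance,
    fun φ => shv (fun i : Fin (2 * L + 1) => σ * tri L (i : ℕ)) (⟨⌊τ φ⌋₊, by have := hsS φ; omega⟩ :
      Fin (S + 1)),
    fun φ j => σ * (tri L (j : ℕ) + τ φ * slope L j), fun φ φ' => ?_, fun φ => ?_, ?_⟩
  · unfold sd
    have : ∀ j : Fin (2 * L + 1 + S), (σ * (tri L (j : ℕ) + τ φ * slope L j)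
        - σ * (tri L (j : ℕ) + τ φ' * slope L j)) ^ 2
        = σ ^ 2 * (τ φ - τ φ') ^ 2 * slope L j ^ 2 := fun j => by ring
    rw [Finset.sum_congr rfl fun j _ => this j, ← Finset.mul_sum, sum_slope L _ (by omega), hσsq]
    have h1 : τ φ - τ φ' = (t φ - t φ') / ε := by
      simp only [τ]
      rw [← sub_div]
      congr 1
      ring
    rw [h1, div_pow, hεsq]
    field_simp
    ring
  · have hs := hsS φ
    set s : ℕ := ⌊τ φ⌋₊ with hs'
    have h1 : (s : ℝ) ≤ τ φ := Nat.floor_le (hτ0 φ)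
    have h2 : τ φ < s + 1 := Nat.lt_floor_add_one _
    unfold sd
    have hterm : ∀ j : Fin (2 * L + 1 + S),
        (shv (fun i : Fin (2 * L + 1) => σ * tri L (i : ℕ)) (⟨s, by omega⟩ : Fin (S + 1)) j
          - σ * (tri L (j : ℕ) + τ φ * slope L j)) ^ 2
        ≤ σ ^ 2 * (2 * (tri L ((j : ℝ) - s) - tri L j - s * slope L j) ^ 2
            + 2 * slope L j ^ 2) := by
      intro j
      rw [shv_tri]
      simp only
      have e1 : (σ * tri L ((j : ℝ) - s) - σ * (tri L (j : ℕ) + τ φ * slope L j)) ^ 2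
          = σ ^ 2 * ((tri L ((j : ℝ) - s) - tri L j - s * slope L j)
            + (s - τ φ) * slope L j) ^ 2 := by ring
      rw [e1]
      refine mul_le_mul_of_nonneg_left ?_ (sq_nonneg σ)
      have e2 : ((s - τ φ) * slope L j) ^ 2 ≤ slope L j ^ 2 := by
        rw [mul_pow]
        have : (s - τ φ) ^ 2 ≤ 1 := by nlinarith
        nlinarith [sq_nonneg (slope L j)]
      nlinarith [sq_nonneg ((tri L ((j : ℝ) - s) - tri L j - s * slope L j)
        - (s - τ φ) * slope L j)]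
    refine (Finset.sum_le_sum fun j _ => hterm j).trans ?_
    rw [← Finset.mul_sum, Finset.sum_add_distrib, ← Finset.mul_sum, ← Finset.mul_sum,
      sum_slope L _ (by omega), hσsq]
    have h3 := sum_err (n := 2 * L + 1 + S) hs hLS
    have h4 : 2 * (∑ j : Fin (2 * L + 1 + S),
        (tri L ((j : ℝ) - s) - tri L j - s * slope L j) ^ 2) + 2 * (2 * (L : ℝ)) ≤ 8 * L := by
      nlinarith
    calc δ / (8 * L) * _ ≤ δ / (8 * L) * (8 * L) :=
          mul_le_mul_of_nonneg_left h4 (by positivity)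
      _ = δ := by field_simp
  · exact (Ram.spread (S := S) (fun i : Fin (2 * L + 1) => σ * tri L (i : ℕ))).comap
      (fun φ => (⟨⌊τ φ⌋₊, by have := hsS φ; omega⟩ : Fin (S + 1)))

end Pool.Agent.TH459.ER
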