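import Pool.Agent.TH459.ER4

set_option autoImplicit false

/-!
# Every finite set has a Ramsey companion at a given distance
-/

namespace Pool.Agent.TH459.ER

/-- Concatenation over a family of blocks. -/
theorem sd_sigma {κ : Type} [Fintype κ] {β : κ → Type} [∀ k, Fintype (β k)]
    (x y : (Σ k, β k) → ℝ) :
    sd x y = ∑ k, sd (fun b => x ⟨k, b⟩) (fun b => y ⟨k, b⟩) := by
  unfold sd
  rw [Fintype.sum_sigma]

/-- A finite set of points sits close to a Ramsey configuration. -/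
theorem approx {Φ κ : Type} [Finite Φ] [Fintype κ] (f : Φ → κ → ℝ) {δ : ℝ} (hδ : 0 < δ) :
    ∃ (κ' : Type) (_ : Fintype κ') (a ι : Φ → κ' → ℝ),
      (∀ φ φ', sd (ι φ) (ι φ') = sd (f φ) (f φ')) ∧ (∀ φ, sd (a φ) (ι φ) ≤ δ) ∧
      Ram (fun φ φ' => sd (a φ) (a φ')) := by
  classical
  have hδ' : 0 < δ / (Fintype.card κ + 1) := by positivity
  choose β iβ a ι h1 h2 h3 using fun k : κ => line_approx (fun φ => f φ k) hδ'
  refine ⟨Σ k, β k, inferInstance, fun φ x => a x.1 φ x.2, fun φ x => ι x.1 φ x.2,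
    fun φ φ' => ?_, fun φ => ?_, ?_⟩
  · rw [sd_sigma]
    exact Finset.sum_congr rfl fun k _ => h1 k φ φ'
  · rw [sd_sigma]
    calc ∑ k, sd (a k φ) (ι k φ) ≤ ∑ _k : κ, δ / (Fintype.card κ + 1) :=
          Finset.sum_le_sum fun k _ => h2 k φ
      _ = Fintype.card κ * (δ / (Fintype.card κ + 1)) := by
          rw [Finset.sum_const, nsmul_eq_mul, Finset.card_univ]
      _ ≤ δ := by
          rw [mul_div_assoc', div_le_iff₀ (by positivity)]
          nlinarith
  · have := Ram.sum Finset.univ (fun k φ φ' => sd (a k φ) (a k φ')) (fun k _ => h3 k)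
    have e : (fun φ φ' : Φ => sd (fun x : Σ k, β k => a x.1 φ x.2) (fun x => a x.1 φ' x.2))
        = fun φ φ' => ∑ k, sd (a k φ) (a k φ') := by
      funext φ φ'
      rw [sd_sigma]
    rw [e]
    exact this

/-- The vertices `w φ • e φ` of a box. -/
theorem Ram.box {Φ : Type} [Fintype Φ] [DecidableEq Φ] (w : Φ → ℝ) :
    Ram (fun φ φ' : Φ => sd (Pi.single φ (w φ) : Φ → ℝ) (Pi.single φ' (w φ'))) := by
  have h := Ram.sum (ι := Φ) Finset.univ
    (fun χ φ φ' => if decide (φ = χ) = decide (φ' = χ) then 0 else w χ ^ 2)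
    (fun χ _ => (Ram.two (w χ ^ 2) (sq_nonneg _)).comap (fun φ => decide (φ = χ)))
  have e : (fun φ φ' : Φ => sd (Pi.single φ (w φ) : Φ → ℝ) (Pi.single φ' (w φ'))) =
      fun φ φ' => ∑ χ, (if decide (φ = χ) = decide (φ' = χ) then 0 else w χ ^ 2) := by
    funext φ φ'
    unfold sd
    refine Finset.sum_congr rfl fun χ _ => ?_
    by_cases h1 : φ = χ
    · subst h1
      by_cases h2 : φ' = φ
      · subst h2
        simp
      · rw [Pi.single_eq_same, Pi.single_eq_of_ne (fun h => h2 h.symm)]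
        simp [h2]
    · by_cases h2 : φ' = χ
      · subst h2
        rw [Pi.single_eq_same, Pi.single_eq_of_ne (fun h => h1 h.symm)]
        simp [h1]
      · rw [Pi.single_eq_of_ne (fun h => h1 h.symm), Pi.single_eq_of_ne (fun h => h2 h.symm)]
        simp [h1, h2]
  rw [e]
  exact h

/-- A Ramsey configuration whose points have squared distance exactly `η` from the points of a
given finite set. -/
theorem companion {Φ κ : Type} [Finite Φ] [Fintype κ] (f : Φ → κ → ℝ) {η : ℝ} (hη : 0 < η) :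
    ∃ (κ' : Type) (_ : Fintype κ') (a ι : Φ → κ' → ℝ),
      (∀ φ φ', sd (ι φ) (ι φ') = sd (f φ) (f φ')) ∧ (∀ φ, sd (a φ) (ι φ) = η) ∧
      Ram (fun φ φ' => sd (a φ) (a φ')) := by
  classical
  have := Fintype.ofFinite Φ
  obtain ⟨κ', iκ', a, ι, h1, h2, h3⟩ := approx f hη
  let w : Φ → ℝ := fun φ => Real.sqrt (η - sd (a φ) (ι φ))
  have hw : ∀ φ, w φ ^ 2 = η - sd (a φ) (ι φ) := fun φ => Real.sq_sqrt (by linarith [h2 φ])
  refine ⟨κ' ⊕ Φ, inferInstance, fun φ => Sum.elim (a φ) (Pi.single φ (w φ)),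
    fun φ => Sum.elim (ι φ) 0, fun φ φ' => ?_, fun φ => ?_, ?_⟩
  · rw [sd_elim, sd_self, add_zero, h1]
  · rw [sd_elim]
    have : sd (Pi.single φ (w φ) : Φ → ℝ) 0 = w φ ^ 2 := by
      unfold sd
      rw [Finset.sum_eq_single φ]
      · simp
      · intro b _ hb
        rw [Pi.single_eq_of_ne hb]
        simp
      · intro h
        exact (h (Finset.mem_univ _)).elim
    rw [this, hw]
    ring
  · have e : (fun φ φ' : Φ => sd (Sum.elim (a φ) (Pi.single φ (w φ)) : κ' ⊕ Φ → ℝ)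
        (Sum.elim (a φ') (Pi.single φ' (w φ')))) =
        fun φ φ' => sd (a φ) (a φ') + sd (Pi.single φ (w φ) : Φ → ℝ) (Pi.single φ' (w φ')) := by
      funext φ φ'
      rw [sd_elim]
    rw [e]
    exact h3.add (Ram.box w)

end Pool.Agent.TH459.ER
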