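import Pool.Agent.TH459.ER2
import Pool.Agent.TH459.ER5

set_option autoImplicit false

/-!
# Adding a point off the hyperplane keeps the Ramsey property
-/

namespace Pool.Agent.TH459.ER

/-- Squared distances of the configuration `x` together with a point at height `√η` over `z`. -/
def coneD {ι α : Type} [Fintype α] (x : ι → α → ℝ) (z : α → ℝ) (η : ℝ) :
    Option ι → Option ι → ℝ
  | some i, some j => sd (x i) (x j)
  | some i, none => sd (x i) z + η
  | none, some j => sd (x j) z + η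
  | none, none => 0

theorem cone_step {ι α : Type} [Finite ι] [Nonempty ι] [Fintype α] (x : ι → α → ℝ)
    (hx : Ram (fun i j => sd (x i) (x j))) (z : α → ℝ) {η : ℝ} (hη : 0 < η) (k : ℕ)
    (ih : RamC (coneD x z η) (Fin k)) : RamC (coneD x z η) (Fin (k + 1)) := by
  classical
  obtain ⟨κ1, iκ1, hκ1⟩ := ih
  obtain ⟨S, hS⟩ := RamC.finite hκ1
  let Φ : Type := {y : κ1 → ℝ // y ∈ insert (0 : κ1 → ℝ) S}
  have hΦ : Finite Φ := (insert (0 : κ1 → ℝ) S).finite_toSet
  let φ0 : Φ := ⟨0, Finset.mem_insert_self _ _⟩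
  obtain ⟨κ', iκ', a, b, h1, h2, h3⟩ := companion (fun φ : Φ => (φ : κ1 → ℝ)) hη
  obtain ⟨κ0, iκ0, hκ0⟩ := (hx.prod h3) (Fin (k + 1)) inferInstance
  refine ⟨κ0 ⊕ (α ⊕ κ'), inferInstance, fun c => ?_⟩
  obtain ⟨g, hg1, hg2⟩ := hκ0 (fun y => c (Sum.elim y 0))
  obtain ⟨Ψ, hΨ1, hΨ2⟩ := ext (fun q : ι × Φ => (Sum.elim (x q.1) (a q.2) : α ⊕ κ' → ℝ)) g
    (fun q q' => by rw [hg1, sd_elim])
  obtain ⟨i0⟩ : Nonempty ι := inferInstance
  set γ : Fin (k + 1) := c (Sum.elim (g (i0, φ0)) 0) with hγ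
  let q : Φ → (κ0 ⊕ (α ⊕ κ') → ℝ) := fun φ => Ψ (Sum.elim z (b φ))
  by_cases hc : ∃ φ, c (q φ) = γ
  · obtain ⟨φ, hφ⟩ := hc
    have hcross : ∀ i, sd (Sum.elim (g (i, φ)) (0 : α ⊕ κ' → ℝ)) (q φ) = sd (x i) z + η := by
      intro i
      have := hΨ2 (i, φ)
      simp only at this
      rw [← this]
      simp only [q]
      rw [hΨ1, sd_elim, h2]
    refine ⟨fun o => o.elim (q φ) (fun i => Sum.elim (g (i, φ)) 0), ?_, ?_⟩
    · intro o o'
      rcases o with _ | i <;> rcases o' with _ | j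
      · exact sd_self _
      · change sd (q φ) (Sum.elim (g (j, φ)) 0) = sd (x j) z + η
        rw [sd_comm, hcross]
      · exact hcross i
      · change sd (Sum.elim (g (i, φ)) (0 : α ⊕ κ' → ℝ)) (Sum.elim (g (j, φ)) 0)
          = sd (x i) (x j)
        rw [sd_elim, sd_self, add_zero, hg1]
        change sd (x i) (x j) + sd (a φ) (a φ) = _
        rw [sd_self, add_zero]
    · have key : ∀ o : Option ι,
          c (o.elim (q φ) (fun i => Sum.elim (g (i, φ)) 0)) = γ := by
        intro o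
        rcases o with _ | i
        · exact hφ
        · exact hg2 (i, φ) (i0, φ0)
      intro o o'
      rw [key o, key o']
  · push Not at hc
    have hd : ∀ φ, ∃ d : Fin k, γ.succAbove d = c (q φ) := fun φ =>
      Fin.exists_succAbove_eq (hc φ)
    choose d hd using hd
    obtain ⟨g1, hg1S, hg1d, hg1c⟩ := hS (fun y => if h : y ∈ insert (0 : κ1 → ℝ) S then
      d ⟨y, h⟩ else d φ0)
    have hmem : ∀ o, g1 o ∈ insert (0 : κ1 → ℝ) S := fun o => Finset.mem_insert_of_mem (hg1S o)
    refine ⟨fun o => q ⟨g1 o, hmem o⟩, fun o o' => ?_, fun o o' => ?_⟩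
    · simp only [q]
      rw [hΨ1, sd_elim, sd_self, zero_add, h1]
      exact hg1d o o'
    · have e := hg1c o o'
      rw [dif_pos (hmem o), dif_pos (hmem o')] at e
      rw [← hd, ← hd, e]

/-- The main theorem, for configurations. -/
theorem Ram.cone {ι α : Type} [Finite ι] [Fintype α] (x : ι → α → ℝ)
    (hx : Ram (fun i j => sd (x i) (x j))) (z : α → ℝ) {η : ℝ} (hη : 0 < η) :
    Ram (coneD x z η) := by
  classical
  rcases isEmpty_or_nonempty ι with hι | hι
  · intro C _
    refine ⟨Empty, inferInstance, fun c => ⟨fun _ => Empty.elim, fun o o' => ?_, fun _ _ => rfl⟩⟩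
    rcases o with _ | i
    · rcases o' with _ | j
      · simp [coneD, sd]
      · exact (hι.false j).elim
    · exact (hι.false i).elim
  · have key : ∀ k : ℕ, RamC (coneD x z η) (Fin k) := by
      intro k
      induction k with
      | zero => exact ⟨Empty, inferInstance, fun c => (c Empty.elim).elim0⟩
      | succ k ih => exact cone_step x hx z hη k ih
    intro C hC
    have := Fintype.ofFinite C
    obtain ⟨κ, iκ, h⟩ := key (Fintype.card C)
    refine ⟨κ, iκ, fun c => ?_⟩
    obtain ⟨g, g1, g2⟩ := h (fun y => Fintype.equivFin C (c y))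
    exact ⟨g, g1, fun i j => (Fintype.equivFin C).injective (g2 i j)⟩

end Pool.Agent.TH459.ER
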